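import Pool.Agent.Helper42.SLC.Concrete
import Pool.Agent.Helper17.SL.Chain
import Pool.Agent.Helper12.SL.GA1
import Pool.Agent.Helper12.SL.GA7
import Pool.Agent.Helper94.SLC.NV
import Pool.Agent.Helper79.SLC.NB1
import Pool.Agent.Helper40.SLC.NB2
import Pool.Agent.Helper87.SLC.SGN
import Pool.Agent.Helper19.SLC.FR1
import Pool.Agent.Helper56.SLC.FRN
import Pool.Agent.Helper27.SLC.NVP
import Pool.Agent.Helper93.SLC.RL
import Pool.Agent.Helper89.SLC.AC
import Pool.Agent.Helper8.SLC.LEO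

/-!
# Project SL, at most one exceptional field: the final theorem, unconditional
-/

namespace Pool.Agent.Helper42.SLC

open Pool.Agent.Helper17.SL
open Pool.Agent.Helper51.SigLeo NumberField Module

universe u v w x y z

theorem frn_holds : S_FRN.{u, v, w, x, y, z} :=
  Pool.Agent.Helper56.SLC.frn PkFR1.fr1 Pool.Agent.Helper79.SLC.nb1 Pool.Agent.Helper40.SLC.nb2

theorem nvp_holds : S_NVP.{u, v, w, x} :=
  Pool.Agent.Helper27.SLC.nvp trans_holds PkGA1.thm Pool.Agent.Helper94.SLC.nv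

theorem rl_holds : S_RL.{u, v, w, x, y, z} :=
  Pool.Agent.Helper93.SLC.rl frn_holds Pool.Agent.Helper87.SLC.sgn nvp_holds

/-- **At most one exceptional field**. -/
theorem subsingleton_holds {k₀ : Type u} {Ω : Type w} [Field k₀] [NumberField k₀] [Field Ω]
    [CharZero Ω] [Algebra k₀ Ω] [IsAlgClosed Ω] [Algebra.IsAlgebraic k₀ Ω]
    (hd : finrank ℚ k₀ = 2) (E : IntermediateField k₀ Ω) [FiniteDimensional k₀ E]
    [IsGalois k₀ E] (hE : (¬ IsTotallyReal E ∧ ¬ IsTotallyComplex E) ∨ IsTotallyComplex k₀)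
    (p : ℕ) [Fact p.Prime] (k : Type x) [NormedField k] [NormedAlgebra ℚ_[p] k]
    [IsUltrametricDist k] [CompleteSpace k] [IsAlgClosed k] (ψ : (E ≃ₐ[k₀] E) →* kˣ)
    (hψ : Function.Injective ψ) :
    {K : IntermediateField k₀ Ω | finrank k₀ K = 2 ∧ IsCMField K ∧
      ¬ Holds E K p ψ}.Subsingleton :=
  subsingleton rl_holds Pool.Agent.Helper8.SLC.leo six_holds trans_holds PkGA1.thm PkGA7.thm
    PkGA7.thm (Pool.Agent.Helper89.SLC.ac Pool.Agent.Helper94.SLC.nv) hd E hE p k ψ hψ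

end Pool.Agent.Helper42.SLC
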