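import Pool.Agent.Helper51.SigLeo.Defs

/-!
# Project SL, at most one exceptional field: the statement
-/

namespace Pool.Agent.Helper42.SLC

open Pool.Agent.Helper51.SigLeo NumberField Module

section

variable {k₀ E K H Ω : Type*} [Field k₀] [Field E] [Algebra k₀ E] [Field K] [Field H]
  [Algebra K H] [Field Ω]

/-- For subfields `E`, `H` of `Ω` (embedded by `a`, `b`): the automorphism `h` of `H` agrees with
the automorphism `g` of `E` on the elements of `E` which are in `H`. -/
def Extends (a : E →+* Ω) (b : H →+* Ω) (h : H ≃ₐ[K] H) (g : E ≃ₐ[k₀] E) : Prop :=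
  ∀ (x : E) (y : H), b y = a x → b (h y) = a (g x)

/-- For subfields `E ⊆ H` of `Ω` (embedded by `a`, `b`), `E` Galois over `k₀`, `H` Galois over `K`,
and a character `ψ` of `Gal(E/k₀)`: the `Σ`-Leopoldt statement for the character `χ` of `Gal(H/K)`
which is the restriction of `ψ` (`χ(h) = ψ(g)` if `h` extends `g`). For all embeddings `ι_∞`, `ι_p` of
`Ω` in `ℂ` and `k = ℂ_p`, all CM types `S` of `K` and for Iwasawa's logarithm `L`, the map
`log_{Σ,p}` is injective on `e_χ(k ⊗ (𝓞_H)ˣ)`. -/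
def HoldsFor (a : E →+* Ω) (b : H →+* Ω) (K : Type*) [Field K] [Algebra K H] (p : ℕ) {k : Type*}
    [NormedField k] (ψ : (E ≃ₐ[k₀] E) →* kˣ) : Prop :=
  ∀ (ιinf : Ω →+* ℂ) (ιp : Ω →+* k) (S : Set (K →+* ℂ)) (χ : (H ≃ₐ[K] H) →* kˣ)
    (L : IwasawaLog p k), IsCMType S → (∀ h g, Extends a b h g → χ h = ψ g) →
      InjectiveOn (finrank K H) χ unitsHom (logSigma ιinf ιp S L)

end

section

variable {k₀ Ω : Type*} [Field k₀] [Field Ω] [Algebra k₀ Ω] (E K : IntermediateField k₀ Ω)

/-- The compositum `KE`, as an extension of `K`. -/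
abbrev Comp : IntermediateField K Ω := IntermediateField.adjoin K (E : Set Ω)

/-- The `Σ`-Leopoldt statement for `K` and the restriction `χ` of `ψ` to `Gal(KE/K)`. -/
def Holds (p : ℕ) {k : Type*} [NormedField k] (ψ : (E ≃ₐ[k₀] E) →* kˣ) : Prop :=
  HoldsFor E.val.toRingHom (Comp E K).val.toRingHom K p ψ

end

end Pool.Agent.Helper42.SLC
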