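import Pool.Agent.Helper42.SLC.Abs
import Pool.Agent.Helper42.SLC.Stmt

/-!
# Project SL, at most one exceptional field: the final theorem
-/

namespace Pool.Agent.Helper42.SLC

open Pool.Agent.Helper17.SL
open Pool.Agent.Helper51.SigLeo Pool.Agent.Helper51.SixExp NumberField Module TensorProduct

set_option linter.unusedSectionVars false

universe u v w x y z u₁ u₂ u₃ u₄

section

variable {k₀ : Type u} {Ω : Type w} [Field k₀] [Field Ω] [Algebra k₀ Ω]
  (E K : IntermediateField k₀ Ω)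

/-- The inclusion of `E` in `KE`. -/
def incl : E →+* Comp E K where
  toFun e := ⟨(e : Ω), IntermediateField.subset_adjoin K _ e.2⟩
  map_one' := rfl
  map_mul' _ _ := rfl
  map_zero' := rfl
  map_add' _ _ := rfl

/-- The two forms of the relation between `χ` and `ψ`. -/
theorem extends_of_incl (h : Comp E K ≃ₐ[K] Comp E K) (g : E ≃ₐ[k₀] E)
    (hx : ∀ x : E, h (incl E K x) = incl E K (g x)) :
    Extends E.val.toRingHom (Comp E K).val.toRingHom h g := by
  intro x y hxy
  have h1 : y = incl E K x := Subtype.ext hxy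
  rw [h1, hx]
  rfl

/-- `KE/K` is normal. -/
theorem normal_comp [IsAlgClosed Ω] [Algebra.IsAlgebraic k₀ Ω] [Normal k₀ E] :
    Normal K (Comp E K) := by
  have h1 : Algebra.IsAlgebraic K Ω := Algebra.IsAlgebraic.tower_top (K := k₀) K
  have h2 : IsAlgClosure K Ω := ⟨inferInstance, inferInstance⟩
  have h3 : Normal K Ω := IsAlgClosure.normal K Ω
  have h4 : IsAlgClosure k₀ Ω := ⟨inferInstance, inferInstance⟩
  have h5 : Normal k₀ Ω := IsAlgClosure.normal k₀ Ω
  rw [IntermediateField.normal_iff_forall_map_le]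
  intro σ
  rw [IntermediateField.adjoin_map, IntermediateField.adjoin_le_iff]
  rintro y ⟨x, hx, rfl⟩
  apply IntermediateField.subset_adjoin K (E : Set Ω)
  have h6 := (IntermediateField.normal_iff_forall_map_le (F := k₀) (K := E) (L := Ω)).mp
    inferInstance (σ.restrictScalars k₀)
  exact h6 ⟨x, hx, rfl⟩

/-- `KE` is contained in every field containing `K` and `E`. -/
theorem comp_le {N : IntermediateField k₀ Ω} (hE : E ≤ N) (hK : K ≤ N) (x : Comp E K) :
    (x : Ω) ∈ N := by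
  have h1 : Comp E K ≤ IntermediateField.extendScalars hK := by
    rw [IntermediateField.adjoin_le_iff]
    intro y hy
    exact hE hy
  exact h1 x.2

/-- An automorphism of `KE/K` which is trivial on `E` is trivial. -/
theorem comp_gen (h : Comp E K ≃ₐ[K] Comp E K) (hh : ∀ x : E, h (incl E K x) = incl E K x) :
    h = 1 := by
  have h1 : (h : Comp E K →ₐ[K] Comp E K) = ((1 : Comp E K ≃ₐ[K] Comp E K) :
      Comp E K →ₐ[K] Comp E K) := by
    refine IntermediateField.algHom_ext_of_eq_adjoin K (S := Comp E K) (s := (E : Set Ω)) rfl ?_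
    intro x hx
    exact hh ⟨x, hx⟩
  ext x
  exact congrArg (fun z : Comp E K ↦ (z : Ω)) (AlgHom.congr_fun h1 x)

end

section main

variable {k₀ : Type u} {Ω : Type w} [Field k₀] [NumberField k₀] [Field Ω] [CharZero Ω]
  [Algebra k₀ Ω]

theorem finiteDimensional_comp (E K : IntermediateField k₀ Ω) [FiniteDimensional k₀ E]
    [FiniteDimensional k₀ K] : FiniteDimensional K (Comp E K) := by
  have hK : K ≤ K ⊔ E := le_sup_left
  have h1 : FiniteDimensional k₀ (IntermediateField.extendScalars hK) :=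
    (inferInstance : FiniteDimensional k₀ (K ⊔ E : IntermediateField k₀ Ω))
  have h2 : FiniteDimensional K (IntermediateField.extendScalars hK) :=
    FiniteDimensional.right k₀ K _
  have h3 : Comp E K ≤ IntermediateField.extendScalars hK := by
    rw [IntermediateField.adjoin_le_iff]
    intro y hy
    exact (le_sup_right : E ≤ K ⊔ E) hy
  exact FiniteDimensional.of_injective (IntermediateField.inclusion h3).toLinearMap
    (IntermediateField.inclusion h3).injective

/-- **At most one exceptional field**, from the parts. -/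
theorem subsingleton (hRL : S_RL.{u, w, w, w, w, x}) (hLEO : S_LEO.{w, w, w, x})
    (hSIX : S_SIX.{w, x, w, w}) (hTR : S_TRANS.{w, x, w, w}) (hGA1 : S_GA1.{w, x, w})
    (hGA7 : S_GA7.{u, w, 0}) (hGA7q : S_GA7.{0, u, 0}) (hAC : S_AC.{u, w})
    [IsAlgClosed Ω] [Algebra.IsAlgebraic k₀ Ω] (hd : finrank ℚ k₀ = 2)
    (E : IntermediateField k₀ Ω) [FiniteDimensional k₀ E] [IsGalois k₀ E]
    (hE : (¬ IsTotallyReal E ∧ ¬ IsTotallyComplex E) ∨ IsTotallyComplex k₀) (p : ℕ)
    [Fact p.Prime] (k : Type x) [NormedField k] [NormedAlgebra ℚ_[p] k] [IsUltrametricDist k]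
    [CompleteSpace k] [IsAlgClosed k] (ψ : (E ≃ₐ[k₀] E) →* kˣ) (hψ : Function.Injective ψ) :
    {K : IntermediateField k₀ Ω | finrank k₀ K = 2 ∧ IsCMField K ∧ ¬ Holds E K p ψ}.Subsingleton := by
  classical
  rintro K₁ ⟨hK₁, hCM₁, hf₁⟩ K₂ ⟨hK₂, hCM₂, hf₂⟩
  by_contra hne
  have hQΩ : Algebra.IsAlgebraic ℚ Ω := Algebra.IsAlgebraic.trans ℚ k₀ Ω
  have hfd₁ : FiniteDimensional k₀ K₁ := FiniteDimensional.of_finrank_pos (by omega)
  have hfd₂ : FiniteDimensional k₀ K₂ := FiniteDimensional.of_finrank_pos (by omega)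
  have hNFE : NumberField E := NumberField.of_module_finite k₀ E
  have hNF₁ : NumberField K₁ := NumberField.of_module_finite k₀ K₁
  have hNF₂ : NumberField K₂ := NumberField.of_module_finite k₀ K₂
  have hq₁ : Algebra.IsQuadraticExtension k₀ K₁ := ⟨hK₁⟩
  have hq₂ : Algebra.IsQuadraticExtension k₀ K₂ := ⟨hK₂⟩
  have hfdH₁ := finiteDimensional_comp E K₁
  have hfdH₂ := finiteDimensional_comp E K₂
  have hNFH₁ : NumberField (Comp E K₁) := NumberField.of_module_finite K₁ _
  have hNFH₂ : NumberField (Comp E K₂) := NumberField.of_module_finite K₂ _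
  have hnH₁ := normal_comp E K₁
  have hnH₂ := normal_comp E K₂
  have hGH₁ : IsGalois K₁ (Comp E K₁) := ⟨⟩
  have hGH₂ : IsGalois K₂ (Comp E K₂) := ⟨⟩
  set N : IntermediateField k₀ Ω := (K₁ ⊔ K₂) ⊔ E with hN
  have hfdN : FiniteDimensional k₀ N := inferInstance
  have hNFN : NumberField N := NumberField.of_module_finite k₀ N
  have hnN : Normal k₀ N := inferInstance
  have hGN : IsGalois k₀ N := ⟨⟩
  have hEN : E ≤ N := le_sup_right
  have hKN₁ : K₁ ≤ N := le_sup_left.trans le_sup_left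
  have hKN₂ : K₂ ≤ N := le_sup_right.trans le_sup_left
  let _ : Algebra E N := (IntermediateField.inclusion hEN).toRingHom.toAlgebra
  let _ : Algebra K₁ N := (IntermediateField.inclusion hKN₁).toRingHom.toAlgebra
  let _ : Algebra K₂ N := (IntermediateField.inclusion hKN₂).toRingHom.toAlgebra
  let _ : Algebra (Comp E K₁) N := RingHom.toAlgebra
    { toFun := fun x ↦ ⟨(x : Ω), comp_le E K₁ hEN hKN₁ x⟩
      map_one' := rfl
      map_mul' := fun _ _ ↦ rfl
      map_zero' := rfl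
      map_add' := fun _ _ ↦ rfl }
  let _ : Algebra (Comp E K₂) N := RingHom.toAlgebra
    { toFun := fun x ↦ ⟨(x : Ω), comp_le E K₂ hEN hKN₂ x⟩
      map_one' := rfl
      map_mul' := fun _ _ ↦ rfl
      map_zero' := rfl
      map_add' := fun _ _ ↦ rfl }
  let _ : Algebra E (Comp E K₁) := (incl E K₁).toAlgebra
  let _ : Algebra E (Comp E K₂) := (incl E K₂).toAlgebra
  have t1 : IsScalarTower k₀ E N := IsScalarTower.of_algebraMap_eq fun x ↦ rfl
  have t2 : IsScalarTower k₀ K₁ N := IsScalarTower.of_algebraMap_eq fun x ↦ rfl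
  have t3 : IsScalarTower k₀ K₂ N := IsScalarTower.of_algebraMap_eq fun x ↦ rfl
  have t4 : IsScalarTower K₁ (Comp E K₁) N := IsScalarTower.of_algebraMap_eq fun x ↦ rfl
  have t5 : IsScalarTower K₂ (Comp E K₂) N := IsScalarTower.of_algebraMap_eq fun x ↦ rfl
  have t6 : IsScalarTower E (Comp E K₁) N := IsScalarTower.of_algebraMap_eq fun x ↦ rfl
  have t7 : IsScalarTower E (Comp E K₂) N := IsScalarTower.of_algebraMap_eq fun x ↦ rfl
  have hsep : ∃ x : K₂, algebraMap K₂ N x ∉ (algebraMap K₁ N).range := by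
    by_contra hall
    push Not at hall
    apply hne
    symm
    apply IntermediateField.eq_of_le_of_finrank_eq
    · intro x hx
      obtain ⟨y, hy⟩ := hall ⟨x, hx⟩
      have h1 : (y : Ω) = x := congrArg (fun z : N ↦ (z : Ω)) hy
      rw [← h1]
      exact y.2
    · rw [hK₁, hK₂]
  unfold Holds HoldsFor at hf₁ hf₂
  push Not at hf₁ hf₂
  obtain ⟨ιinf₁, ιp₁, S₁, χ₁, Λ₁, hS₁, hχ₁, hi₁⟩ := hf₁
  obtain ⟨ιinf₂, ιp₂, S₂, χ₂, Λ₂, hS₂, hχ₂, hi₂⟩ := hf₂
  exact abs (k₀ := k₀) (E := E) (N := N) (K₁ := K₁) (H₁ := Comp E K₁) (K₂ := K₂)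
    (H₂ := Comp E K₂) (Ω := Ω) hRL hRL hLEO hLEO hSIX hTR hGA1 hGA7 hGA7q hAC p k hd hK₁ hK₂ hsep
    (fun h hh ↦ comp_gen E K₁ h hh) (fun h hh ↦ comp_gen E K₂ h hh) ψ hψ χ₁ χ₂
    (fun h g hx ↦ hχ₁ h g (extends_of_incl E K₁ h g hx))
    (fun h g hx ↦ hχ₂ h g (extends_of_incl E K₂ h g hx)) hE ιinf₁
    ιinf₂ ιp₁ ιp₂ S₁ S₂ Λ₁ Λ₂ hS₁ hS₂ hi₁ hi₂

end main

end Pool.Agent.Helper42.SLC
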