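import Pool.Agent.Helper17.SL.TargetA

/-!
# Project SL, at most one exceptional field: the core
-/

namespace Pool.Agent.Helper42.SLC

open Pool.Agent.Helper17.SL
open Pool.Agent.Helper51.SigLeo Pool.Agent.Helper51.SixExp NumberField Module TensorProduct

set_option linter.unusedSectionVars false

universe u v w x y z

/-- The sum `∑_g θ(g⁻¹) ℓ(g v)`. -/
noncomputable def tw {M N A : Type*} [Field M] [Field N] [Algebra M N] [Fintype (N ≃ₐ[M] N)]
    [Field A] (θ : (N ≃ₐ[M] N) →* Aˣ) (ℓ : Additive (𝓞 N)ˣ →+ A) (v : Additive (𝓞 N)ˣ) : A :=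
  ∑ g : N ≃ₐ[M] N, ((θ g⁻¹ : Aˣ) : A) * ℓ (unitsHom g v)

section lemmas

variable {M N : Type*} [Field M] [Field N] [Algebra M N] [Fintype (N ≃ₐ[M] N)]

theorem tw_comp {A : Type*} [Field A] (θ : (N ≃ₐ[M] N) →* Aˣ) (ℓ : Additive (𝓞 N)ˣ →+ A)
    (v : Additive (𝓞 N)ˣ) (h : N ≃ₐ[M] N) :
    tw θ (ℓ.comp (unitsHom h)) v = ((θ h : Aˣ) : A) * tw θ ℓ v := by
  unfold tw
  rw [Finset.mul_sum]
  rw [← Fintype.sum_equiv (Equiv.mulLeft h) (fun g ↦ ((θ h : Aˣ) : A) *
    (((θ (h * g)⁻¹ : Aˣ) : A) * ℓ (unitsHom (h * g) v))) (fun g ↦ ((θ h : Aˣ) : A) *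
    (((θ g⁻¹ : Aˣ) : A) * ℓ (unitsHom g v))) (fun g ↦ rfl)]
  refine Finset.sum_congr rfl fun g _ ↦ ?_
  rw [AddMonoidHom.comp_apply, unitsHom_comp, ← mul_assoc]
  congr 1
  have h1 : θ g⁻¹ = θ h * θ (h * g)⁻¹ := by
    rw [map_inv, map_inv, map_mul, mul_inv, mul_inv_cancel_left]
  rw [h1, Units.val_mul]

theorem tw_logUnits_comp {p : ℕ} {k : Type*} [NormedField k] (Λ : IwasawaLog p k) (σ : N →+* k)
    (θ : (N ≃ₐ[M] N) →* kˣ) (v : Additive (𝓞 N)ˣ) (h : N ≃ₐ[M] N) :
    tw θ (logUnits Λ (σ.comp (h : N →+* N))) v = ((θ h : kˣ) : k) * tw θ (logUnits Λ σ) v :=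
  tw_comp θ (logUnits Λ σ) v h

theorem tw_archLog_comp (ρ : N →+* ℂ) (θ : (N ≃ₐ[M] N) →* ℂˣ) (v : Additive (𝓞 N)ˣ)
    (h : N ≃ₐ[M] N) :
    tw θ (archLog (ρ.comp (h : N →+* N))) v = ((θ h : ℂˣ) : ℂ) * tw θ (archLog ρ) v :=
  tw_comp θ (archLog ρ) v h

/-- The sum `tw` as the value of `Phi` at `tchi`. -/
theorem Phi_eq_tw {E A : Type*} [Field E] [Field A] (j : E →+* A) (θ : (N ≃ₐ[M] N) →* Eˣ)
    (θ' : (N ≃ₐ[M] N) →* Aˣ) (hθ : ∀ g, j ((θ g : Eˣ) : E) = θ' g)
    (ℓ : Additive (𝓞 N)ˣ →+ A) (v : Additive (𝓞 N)ˣ) : Phi j ℓ (tchi θ v) = tw θ' ℓ v := by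
  rw [Phi_tchi]
  unfold tw
  refine Finset.sum_congr rfl fun g _ ↦ ?_
  rw [smul_eq_mul, hθ]

theorem Phi_eq_tw' {E A : Type*} [Field E] [Field A] (j : E →+* A) (θ : (N ≃ₐ[M] N) →* Eˣ)
    (ℓ : Additive (𝓞 N)ˣ →+ A) (v : Additive (𝓞 N)ˣ) :
    Phi j ℓ (tchi θ v) = tw ((Units.map (j : E →* A)).comp θ) ℓ v :=
  Phi_eq_tw j θ _ (fun _ ↦ rfl) ℓ v

end lemmas

/-- Extension of an embedding `N → ℂ` to `Ω`. -/
theorem exists_comp_eq {N Ω A : Type*} [Field N] [Field Ω] [CharZero Ω] [Algebra.IsAlgebraic ℚ Ω]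
    [Field A] [CharZero A] [IsAlgClosed A] (τ : N →+* Ω) (ρ : N →+* A) :
    ∃ ι' : Ω →+* A, ι'.comp τ = ρ := by
  let _ := τ.toAlgebra
  have : CharZero N := τ.charZero
  have : IsScalarTower ℚ N Ω := IsScalarTower.of_algebraMap_eq fun q ↦ by simp
  have : Algebra.IsAlgebraic N Ω := Algebra.IsAlgebraic.tower_top (K := ℚ) N
  exact exists_extend_embedding (K := N) (H := Ω) ρ

/-- Dedekind independence: if `∑_j c_j θ_j(h) = 0` for all `h`, then `c = 0`. -/
theorem dedekind {G A ι : Type*} [Group G] [Field A] [Fintype ι] (θ : ι → G →* Aˣ)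
    (hθ : Function.Injective θ) (c : ι → A) (h : ∀ g, ∑ j, c j * ((θ j g : Aˣ) : A) = 0) :
    ∀ j, c j = 0 := by
  have hinj : Function.Injective (fun j ↦ (Units.coeHom A).comp (θ j)) := by
    intro i j hij
    apply hθ
    ext g
    exact DFunLike.congr_fun hij g
  have h1 := (linearIndependent_monoidHom G A).comp _ hinj
  rw [Fintype.linearIndependent_iff] at h1
  refine h1 c ?_
  funext g
  rw [Finset.sum_apply, Pi.zero_apply, ← h g]
  rfl

section core

variable {M : Type u} {N : Type v} {Ω : Type w} [Field M] [Field N] [NumberField N] [Algebra M N]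
  [Fintype (N ≃ₐ[M] N)] [Field Ω] [CharZero Ω]

/-- **The core**: three characters, two embeddings. -/
theorem core (hSIX : S_SIX.{w, x, y, v}) (hTR : S_TRANS.{w, x, y, v}) [IsAlgClosed Ω]
    [Algebra.IsAlgebraic ℚ Ω] (p : ℕ) [Fact p.Prime] (k : Type x) [NormedField k]
    [NormedAlgebra ℚ_[p] k] [IsUltrametricDist k] [CompleteSpace k] (ιp : Ω →+* k)
    (Λ : IwasawaLog p k) {E : Type y} [Field E] [NumberField E] (lam : E →+* Ω) (ε : E →+* ℂ)
    (θ : Fin 3 → (N ≃ₐ[M] N) →* Eˣ) (hθ : Function.Injective θ) (τ : Fin 2 → N →+* Ω)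
    (ι' : Ω →+* ℂ) (v : Fin 3 → Additive (𝓞 N)ˣ) (s : Fin 3 → E) (hs0 : s 0 = 1)
    (hrel : ∀ j, (ιp.comp lam) (s j) *
        Phi (ιp.comp lam) (logUnits Λ (ιp.comp (τ 0))) (tchi (θ 0) (v 0)) *
        Phi (ιp.comp lam) (logUnits Λ (ιp.comp (τ 1))) (tchi (θ j) (v j)) =
      Phi (ιp.comp lam) (logUnits Λ (ιp.comp (τ 1))) (tchi (θ 0) (v 0)) *
        Phi (ιp.comp lam) (logUnits Λ (ιp.comp (τ 0))) (tchi (θ j) (v j)))
    (hdet : ε (s 1) * Phi ε (archLog (ι'.comp (τ 0))) (tchi (θ 0) (v 0)) *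
        Phi ε (archLog (ι'.comp (τ 1))) (tchi (θ 1) (v 1)) -
      Phi ε (archLog (ι'.comp (τ 1))) (tchi (θ 0) (v 0)) *
        Phi ε (archLog (ι'.comp (τ 0))) (tchi (θ 1) (v 1)) ≠ 0)
    (h2 : Phi ε (archLog (ι'.comp (τ 0))) (tchi (θ 2) (v 2)) ≠ 0 ∨
      Phi ε (archLog (ι'.comp (τ 1))) (tchi (θ 2) (v 2)) ≠ 0) : False := by
  classical
  have hchar : CharZero k := charZero_of_padic p (k := k)
  set j : E →+* k := ιp.comp lam with hjdef
  set a : Fin 2 → Fin 3 → k := fun i q ↦ Phi j (logUnits Λ (ιp.comp (τ i))) (tchi (θ q) (v q))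
    with hadef
  set L : (N →+* ℂ) → Fin 3 → ℂ := fun ρ q ↦ Phi ε (archLog ρ) (tchi (θ q) (v q)) with hLdef
  have hrel' : ∀ q, j (s q) * a 0 0 * a 1 q = a 1 0 * a 0 q := hrel
  have hdet' : ε (s 1) * L (ι'.comp (τ 0)) 0 * L (ι'.comp (τ 1)) 1 -
    L (ι'.comp (τ 1)) 0 * L (ι'.comp (τ 0)) 1 ≠ 0 := hdet
  have h2' : L (ι'.comp (τ 0)) 2 ≠ 0 ∨ L (ι'.comp (τ 1)) 2 ≠ 0 := h2
  -- the matrix
  let t : Fin 2 → Fin 3 → E := fun i q ↦ if i = 0 then 1 else s q
  have ht0 : ∀ q, t 0 q = 1 := fun q ↦ if_pos rfl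
  have ht1 : ∀ q, t 1 q = s q := fun q ↦ if_neg (by decide)
  have ha : ∀ i q, a i q = ∑ g : N ≃ₐ[M] N, ιp (lam ((θ q g⁻¹ : Eˣ) : E)) *
      Λ.toFun (Units.map (ιp : Ω →* k) (img (τ i) (unitsHom g (v q)).toMul)) := by
    intro i q
    show Phi j _ _ = _
    rw [Phi_tchi]
    refine Finset.sum_congr rfl fun g _ ↦ ?_
    rw [smul_eq_mul, log_img]
    rfl
  -- transfer of relations
  have htrans : ∀ (b : Fin 2 → Fin 3 → E), ∑ i, ∑ q, j (b i q) * a i q = 0 →
      ∀ ι' : Ω →+* ℂ, ∑ i, ∑ q, ε (b i q) * L (ι'.comp (τ i)) q = 0 := by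
    intro b hb ι'
    have h3 := hTR p k Ω ιp Λ E lam ((Fin 2 × Fin 3) × (N ≃ₐ[M] N))
      (fun r ↦ b r.1.1 r.1.2 * ((θ r.1.2 r.2⁻¹ : Eˣ) : E))
      (fun r ↦ img (τ r.1.1) (unitsHom r.2 (v r.1.2)).toMul) (fun r ↦ img_isUnitAlg _ _) (by
        rw [Fintype.sum_prod_type, Fintype.sum_prod_type, ← hb]
        refine Finset.sum_congr rfl fun i _ ↦ Finset.sum_congr rfl fun q _ ↦ ?_
        rw [ha, Finset.mul_sum]
        refine Finset.sum_congr rfl fun g _ ↦ ?_
        rw [map_mul, map_mul, mul_assoc]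
        rfl) ε ι'
    rw [Fintype.sum_prod_type, Fintype.sum_prod_type] at h3
    rw [← h3]
    refine Finset.sum_congr rfl fun i _ ↦ Finset.sum_congr rfl fun q _ ↦ ?_
    show _ * Phi ε _ _ = _
    rw [Phi_tchi, Finset.mul_sum]
    refine Finset.sum_congr rfl fun g _ ↦ ?_
    rw [map_mul, smul_eq_mul, mul_assoc]
    rfl
  -- the first column is not zero
  have hcol : a 0 0 ≠ 0 ∨ a 1 0 ≠ 0 := by
    by_contra hcol
    push Not at hcol
    obtain ⟨hc0, hc1⟩ := hcol
    have e1 := htrans ![![1, 0, 0], ![0, 0, 0]] (by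
      simp [Fin.sum_univ_two, Fin.sum_univ_three, hc0]) ι'
    have e2 := htrans ![![0, 0, 0], ![1, 0, 0]] (by
      simp [Fin.sum_univ_two, Fin.sum_univ_three, hc1]) ι'
    simp only [Fin.sum_univ_two, Fin.sum_univ_three, Matrix.cons_val_zero, Matrix.cons_val_one,
      Matrix.cons_val, map_one, map_zero, one_mul, zero_mul, add_zero, zero_add] at e1 e2
    apply hdet'
    rw [e1, e2]; ring
  have hd1 := hrel' 1
  have hd2 := hrel' 2
  have hd3 : a 0 1 * (j (s 2) * a 1 2) = a 0 2 * (j (s 1) * a 1 1) := by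
    rcases hcol with h | h
    · apply mul_left_cancel₀ h
      linear_combination (a 0 1) * hd2 - (a 0 2) * hd1
    · apply mul_left_cancel₀ h
      linear_combination (j (s 1) * a 1 1) * hd2 - (j (s 2) * a 1 2) * hd1
  have hM00 : j (t 0 0) * a 0 0 = a 0 0 := by rw [ht0, map_one, one_mul]
  have hminor : ∀ i i' q q', (j (t i q) * a i q) * (j (t i' q') * a i' q') =
      (j (t i q') * a i q') * (j (t i' q) * a i' q) := by
    intro i i' q q'
    have hs0' : j (s 0) = 1 := by rw [hs0, map_one]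
    fin_cases i <;> fin_cases i' <;> fin_cases q <;> fin_cases q' <;>
      simp only [Fin.zero_eta, Fin.mk_one, Fin.reduceFinMk, Fin.isValue, ht0, ht1, map_one,
        one_mul, hs0'] <;>
      first
        | ring1
        | linear_combination hd1
        | linear_combination -hd1
        | linear_combination hd2
        | linear_combination -hd2
        | linear_combination hd3
        | linear_combination -hd3
  rcases hSIX p k Ω ιp Λ E lam 2 3 (N ≃ₐ[M] N) (fun i q g ↦ t i q * ((θ q g⁻¹ : Eˣ) : E))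
    (fun i q g ↦ img (τ i) (unitsHom g (v q)).toMul) (fun i q ↦ j (t i q) * a i q)
    (fun i q g ↦ img_isUnitAlg _ _) (fun i q ↦ by
      rw [ha, Finset.mul_sum]
      refine Finset.sum_congr rfl fun g _ ↦ ?_
      rw [map_mul, map_mul, mul_assoc]
      rfl)
    (by norm_num) hminor with ⟨b, hb0, hb⟩ | ⟨c, hc0, hc⟩
  · -- dependent rows
    apply hb0
    have key : ∀ q : Fin 3, ε (b 0) * L (ι'.comp (τ 0)) q +
        ε (b 1) * (ε (s q) * L (ι'.comp (τ 1)) q) = 0 := by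
      intro q
      have e1 := htrans (fun i q' ↦ if q' = q then b i * t i q' else 0) (by
        rw [← hb q]
        refine Finset.sum_congr rfl fun i _ ↦ ?_
        rw [Finset.sum_eq_single q]
        · rw [if_pos rfl, map_mul, mul_assoc]; rfl
        · intro q' _ hq'
          rw [if_neg hq', map_zero, zero_mul]
        · intro h; exact absurd (Finset.mem_univ _) h) ι'
      rw [← e1, Fin.sum_univ_two]
      congr 1
      · rw [Finset.sum_eq_single q]
        · rw [if_pos rfl, ht0, mul_one]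
        · intro q' _ hq'
          rw [if_neg hq', map_zero, zero_mul]
        · intro h; exact absurd (Finset.mem_univ _) h
      · rw [Finset.sum_eq_single q]
        · rw [if_pos rfl, ht1, map_mul, mul_assoc]
        · intro q' _ hq'
          rw [if_neg hq', map_zero, zero_mul]
        · intro h; exact absurd (Finset.mem_univ _) h
    have k0 := key 0
    have k1 := key 1
    rw [hs0, map_one, one_mul] at k0
    have z0 : ε (b 0) = 0 := by
      apply (mul_eq_zero.mp _).resolve_right hdet'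
      linear_combination (ε (s 1) * L (ι'.comp (τ 1)) 1) * k0 - (L (ι'.comp (τ 1)) 0) * k1
    have z1 : ε (b 1) = 0 := by
      apply (mul_eq_zero.mp _).resolve_right hdet'
      linear_combination (L (ι'.comp (τ 0)) 0) * k1 - (L (ι'.comp (τ 0)) 1) * k0
    funext i
    fin_cases i
    · exact (map_eq_zero ε).mp z0
    · exact (map_eq_zero ε).mp z1
  · -- dependent columns
    have key : ∀ (i : Fin 2) (ρ : N →+* ℂ), ∑ q, ε (c q * t i q) * L ρ q = 0 := by
      intro i ρ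
      obtain ⟨ι'', hι''⟩ := exists_comp_eq (τ i) ρ
      have e1 := htrans (fun i' q ↦ if i' = i then c q * t i q else 0) (by
        rw [Finset.sum_eq_single i]
        · rw [← hc i]
          refine Finset.sum_congr rfl fun q _ ↦ ?_
          rw [if_pos rfl, map_mul, mul_assoc]; rfl
        · intro i' _ hi'
          apply Finset.sum_eq_zero
          intro q _
          rw [if_neg hi', map_zero, zero_mul]
        · intro h; exact absurd (Finset.mem_univ _) h) ι''
      rw [Finset.sum_eq_single i] at e1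
      · rw [← e1]
        refine Finset.sum_congr rfl fun q _ ↦ ?_
        rw [if_pos rfl, hι'']
      · intro i' _ hi'
        apply Finset.sum_eq_zero
        intro q _
        rw [if_neg hi', map_zero, zero_mul]
      · intro h; exact absurd (Finset.mem_univ _) h
    have hθC : Function.Injective (fun q ↦ (Units.map (ε : E →* ℂ)).comp (θ q)) := by
      intro q q' hqq
      apply hθ
      ext g
      apply ε.injective
      have := congrArg (fun z : ℂˣ ↦ (z : ℂ)) (DFunLike.congr_fun hqq g)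
      simpa using this
    have key2 : ∀ (i : Fin 2) (ρ : N →+* ℂ) (q : Fin 3), ε (c q * t i q) * L ρ q = 0 := by
      intro i ρ
      refine dedekind (fun q ↦ (Units.map (ε : E →* ℂ)).comp (θ q)) hθC
        (fun q ↦ ε (c q * t i q) * L ρ q) fun h ↦ ?_
      rw [← key i (ρ.comp (h : N →+* N))]
      refine Finset.sum_congr rfl fun q _ ↦ ?_
      have h3 : L (ρ.comp (h : N →+* N)) q = ε ((θ q h : Eˣ) : E) * L ρ q := by
        show Phi ε _ _ = _
        rw [archLog_comp, Phi_tchi_comp, smul_eq_mul]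
      rw [h3]
      show _ * ε ((θ q h : Eˣ) : E) = _
      ring
    have key3 : ∀ q, (L (ι'.comp (τ 0)) q ≠ 0 ∨ L (ι'.comp (τ 1)) q ≠ 0) → c q = 0 := by
      intro q hq
      rcases hq with hq | hq
      · have h4 := (mul_eq_zero.mp (key2 0 _ q)).resolve_right hq
        rw [ht0, mul_one] at h4
        exact (map_eq_zero ε).mp h4
      · have h4 := (mul_eq_zero.mp (key2 0 _ q)).resolve_right hq
        rw [ht0, mul_one] at h4
        exact (map_eq_zero ε).mp h4
    apply hc0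
    funext q
    fin_cases q
    · apply key3 0
      by_contra hcon
      push Not at hcon
      apply hdet'
      rw [hcon.1, hcon.2]; ring
    · apply key3 1
      by_contra hcon
      push Not at hcon
      apply hdet'
      rw [hcon.1, hcon.2]; ring
    · exact key3 2 h2'

end core

end Pool.Agent.Helper42.SLC
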