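import Pool.Agent.Helper42.SLC.Fin
import Pool.Agent.Helper51.SixExp.Family

/-!
# Project SL, at most one exceptional field: the abstract theorem
-/

namespace Pool.Agent.Helper42.SLC

open Pool.Agent.Helper17.SL
open Pool.Agent.Helper51.SigLeo Pool.Agent.Helper51.SixExp NumberField Module TensorProduct

set_option linter.unusedSectionVars false

universe u v w x y z u₁ u₂ u₃ u₄

/-- A group of order two has a faithful sign. -/
theorem exists_sign {G A : Type*} [Group G] [Field A] (h : Nat.card G = 2) :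
    ∃ η : G →* Aˣ, ∀ g, g ≠ 1 → η g = -1 := by
  classical
  have hfin : Finite G := Nat.finite_of_card_ne_zero (by omega)
  have : Fintype G := Fintype.ofFinite G
  have hcard : Fintype.card G = 2 := by rw [← Nat.card_eq_fintype_card]; exact h
  have huniq : ∀ a b : G, a ≠ 1 → b ≠ 1 → a = b := by
    intro a b ha hb
    by_contra hab
    have h1 : ({1, a, b} : Finset G).card ≤ Fintype.card G := Finset.card_le_univ _
    rw [Finset.card_eq_three.mpr ⟨1, a, b, ha.symm, hb.symm, hab, rfl⟩, hcard] at h1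
    omega
  refine ⟨{ toFun := fun g ↦ if g = 1 then 1 else -1
            map_one' := if_pos rfl
            map_mul' := fun a b ↦ ?_ }, fun g hg ↦ if_neg hg⟩
  by_cases ha : a = 1
  · rw [ha, one_mul, if_pos rfl, one_mul]
  · by_cases hb : b = 1
    · rw [hb, mul_one, if_pos rfl, mul_one]
    · have h1 : a * b = 1 := by
        by_contra hab
        have h2 := huniq (a * b) a hab ha
        exact hb (mul_left_cancel (h2.trans (mul_one a).symm))
      rw [if_pos h1, if_neg ha, if_neg hb, neg_mul_neg, one_mul]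

section

variable {k₀ K N : Type*} [Field k₀] [Field K] [Field N] [NumberField N] [Algebra k₀ K]
  [Algebra k₀ N] [Algebra K N] [IsScalarTower k₀ K N] [FiniteDimensional k₀ N] [IsGalois k₀ N]

/-- The quadratic character attached to `K`. -/
theorem exists_eta (A : Type*) [Field A] (hK : finrank k₀ K = 2) :
    ∃ η : (N ≃ₐ[k₀] N) →* Aˣ,
      (∀ g : N ≃ₐ[k₀] N, (∀ x : K, g (algebraMap K N x) = algebraMap K N x) → η g = 1) ∧
      (∀ g : N ≃ₐ[k₀] N, (∃ x : K, g (algebraMap K N x) ≠ algebraMap K N x) → η g = -1) := by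
  have hchar : CharZero k₀ := (algebraMap k₀ N).charZero
  have hq : Algebra.IsQuadraticExtension k₀ K := ⟨hK⟩
  have hG : IsGalois k₀ K := inferInstance
  have hfd : FiniteDimensional k₀ K := FiniteDimensional.of_finrank_pos (by omega)
  obtain ⟨η, hη⟩ := exists_sign (G := K ≃ₐ[k₀] K) (A := A) (by
    rw [IsGalois.card_aut_eq_finrank, hK])
  refine ⟨η.comp (AlgEquiv.restrictNormalHom K), fun g hg ↦ ?_, fun g ⟨x, hx⟩ ↦ ?_⟩
  · have h1 : AlgEquiv.restrictNormalHom K g = 1 := by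
      ext y
      apply (algebraMap K N).injective
      exact (AlgEquiv.restrictNormal_commutes g K y).trans (hg y)
    rw [MonoidHom.comp_apply, h1, map_one]
  · apply hη
    intro h1
    apply hx
    have h2 := AlgEquiv.restrictNormal_commutes g K x
    have h3 : g.restrictNormal K x = x := AlgEquiv.congr_fun h1 x
    rw [← h2, h3]

/-- There is an element of the Galois group which is not trivial on `K`. -/
theorem exists_not_trivial (hK : finrank k₀ K = 2) :
    ∃ g : N ≃ₐ[k₀] N, ∃ x : K, g (algebraMap K N x) ≠ algebraMap K N x := by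
  obtain ⟨y, hy⟩ := exists_not_mem hK
  by_contra hall
  push Not at hall
  apply hy
  obtain ⟨z, hz⟩ := (IsGalois.mem_range_algebraMap_iff_fixed (F := k₀) (algebraMap K N y)).mpr
    fun g ↦ hall g y
  refine ⟨z, (algebraMap K N).injective ?_⟩
  rw [← hz, ← IsScalarTower.algebraMap_apply]

/-- Two different fields are separated by an element of the Galois group. -/
theorem exists_separate {K₂ : Type*} [Field K₂] [Algebra K₂ N] (x : K₂)
    (hx : algebraMap K₂ N x ∉ (algebraMap K N).range) :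
    ∃ g : N ≃ₐ[k₀] N, (∀ y : K, g (algebraMap K N y) = algebraMap K N y) ∧
      g (algebraMap K₂ N x) ≠ algebraMap K₂ N x := by
  have hfd : FiniteDimensional K N := FiniteDimensional.right k₀ K N
  have hG : IsGalois K N := IsGalois.tower_top_of_isGalois k₀ K N
  by_contra hall
  push Not at hall
  apply hx
  obtain ⟨z, hz⟩ := (IsGalois.mem_range_algebraMap_iff_fixed (F := K) (algebraMap K₂ N x)).mpr
    fun g ↦ hall (g.restrictScalars k₀) fun y ↦ g.commutes y
  exact ⟨z, hz⟩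

/-- A character compatible with a nontrivial character is not trivial. -/
theorem ne_one_of_compat {H A : Type*} [Field H] [Algebra K H] [Algebra H N] [IsScalarTower K H N]
    [IsGalois K H] [Field A] (χ : (H ≃ₐ[K] H) →* Aˣ) (θ : (N ≃ₐ[k₀] N) →* Aˣ)
    (hθ : Compat χ θ) (hχ : χ ≠ 1) : θ ≠ 1 := by
  have hG : IsGalois K N := IsGalois.tower_top_of_isGalois k₀ K N
  intro h
  apply hχ
  ext a
  obtain ⟨g, hg⟩ := AlgEquiv.restrictNormalHom_surjective (F := K) (K₁ := H) N a
  have h1 := hθ (g.restrictScalars k₀) a fun x ↦ by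
    rw [← hg]
    exact (AlgEquiv.restrictNormal_commutes g H x).symm
  rw [← h1, h]
  rfl

end

/-- The complex conjugation of `N` is not trivial on a totally complex subfield. -/
theorem exists_moved {k₀ K N : Type*} [Field k₀] [Field K] [NumberField K] [IsTotallyComplex K]
    [Field N] [Algebra k₀ N] [Algebra K N] (ρ : N →+* ℂ) (c : N ≃ₐ[k₀] N)
    (hc : ComplexEmbedding.conjugate ρ = ρ.comp (c : N →+* N)) :
    ∃ x : K, c (algebraMap K N x) ≠ algebraMap K N x := by
  by_contra hall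
  push Not at hall
  apply conjugate_ne (ρ.comp (algebraMap K N))
  rw [← ComplexEmbedding.conjugate_comp, hc]
  ext x
  exact congrArg ρ (hall x)

/-- The logarithm of units does not depend on the choice of `Λ`. -/
theorem logUnits_unique {N Ω : Type*} [Field N] [NumberField N] [Field Ω] [CharZero Ω]
    [IsAlgClosed Ω] (p : ℕ) [Fact p.Prime] {k : Type*} [NormedField k]
    [NormedAlgebra ℚ_[p] k] [IsUltrametricDist k] [CompleteSpace k] [IsAlgClosed k]
    (ιp : Ω →+* k) (Λ Λ' : IwasawaLog p k) (σ : N →+* k) : logUnits Λ σ = logUnits Λ' σ := by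
  have hchar : CharZero k := charZero_of_padic p (k := k)
  obtain ⟨τ, rfl⟩ := exists_lift_embedding ιp σ
  apply AddMonoidHom.ext
  intro u
  have h1 := log_img Λ ιp τ u.toMul
  have h2 := log_img Λ' ιp τ u.toMul
  have h3 := log_unique p ιp Λ Λ' _ (img_isUnitAlg τ u.toMul)
  exact h1.symm.trans (h3.trans h2)

section main

variable {k₀ : Type u} {E : Type y} {N : Type v} {Ω : Type w} {K₁ : Type u₁} {H₁ : Type u₂}
  {K₂ : Type u₃} {H₂ : Type u₄}
  [Field k₀] [NumberField k₀] [Field N] [NumberField N] [Algebra k₀ N] [IsGalois k₀ N]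
  [Field E] [NumberField E] [Algebra k₀ E] [Algebra E N] [IsScalarTower k₀ E N] [IsGalois k₀ E]
  [Field K₁] [NumberField K₁] [IsCMField K₁] [Algebra k₀ K₁] [Algebra K₁ N]
  [IsScalarTower k₀ K₁ N] [Field H₁] [NumberField H₁] [Algebra K₁ H₁] [Algebra H₁ N]
  [IsScalarTower K₁ H₁ N] [IsGalois K₁ H₁] [Algebra E H₁] [IsScalarTower E H₁ N]
  [Field K₂] [NumberField K₂] [IsCMField K₂] [Algebra k₀ K₂] [Algebra K₂ N]
  [IsScalarTower k₀ K₂ N] [Field H₂] [NumberField H₂] [Algebra K₂ H₂] [Algebra H₂ N]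
  [IsScalarTower K₂ H₂ N] [IsGalois K₂ H₂] [Algebra E H₂] [IsScalarTower E H₂ N]
  [Field Ω] [CharZero Ω]

/-- The failure for one field gives a relation. -/
theorem rel_of_fail {K : Type u₁} {H : Type u₂} [Field K] [NumberField K] [IsCMField K]
    [Algebra k₀ K] [Algebra K N] [IsScalarTower k₀ K N] [Field H] [NumberField H] [Algebra K H]
    [Algebra H N] [IsScalarTower K H N] [IsGalois K H] [Algebra E H] [IsScalarTower E H N]
    [Fintype (N ≃ₐ[k₀] N)]
    (hRL : S_RL.{u, u₁, u₂, v, w, x}) (hLEO : S_LEO.{u₁, u₂, w, x})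
    [IsAlgClosed Ω] [Algebra.IsAlgebraic ℚ Ω] (p : ℕ) [Fact p.Prime] (k : Type x) [NormedField k]
    [NormedAlgebra ℚ_[p] k] [IsUltrametricDist k] [CompleteSpace k] [IsAlgClosed k]
    (hd : finrank ℚ k₀ = 2) (hK : finrank k₀ K = 2)
    (hgen : ∀ h : H ≃ₐ[K] H, (∀ x : E, h (algebraMap E H x) = algebraMap E H x) → h = 1)
    (ψ : (E ≃ₐ[k₀] E) →* kˣ) (hψ : Function.Injective ψ) (χ : (H ≃ₐ[K] H) →* kˣ)
    (hχ : ∀ (h : H ≃ₐ[K] H) (g₀ : E ≃ₐ[k₀] E),
      (∀ x : E, h (algebraMap E H x) = algebraMap E H (g₀ x)) → χ h = ψ g₀)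
    (η : (N ≃ₐ[k₀] N) →* kˣ)
    (hη1 : ∀ g : N ≃ₐ[k₀] N, (∀ x : K, g (algebraMap K N x) = algebraMap K N x) → η g = 1)
    (hη2 : ∀ g : N ≃ₐ[k₀] N, (∃ x : K, g (algebraMap K N x) ≠ algebraMap K N x) → η g = -1)
    (ιinf : Ω →+* ℂ) (ιp : Ω →+* k) (S : Set (K →+* ℂ)) (Λ : IwasawaLog p k) (hS : IsCMType S)
    (hfail : ¬ InjectiveOn (finrank K H) χ unitsHom (logSigma ιinf ιp S Λ)) :
    (ψ.comp (AlgEquiv.restrictNormalHom E) : (N ≃ₐ[k₀] N) →* kˣ) ≠ 1 ∧
    (ψ.comp (AlgEquiv.restrictNormalHom E) : (N ≃ₐ[k₀] N) →* kˣ) * η ≠ 1 ∧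
    REL k₀ K N ((IsCMField.complexConj K : K ≃ₐ[maximalRealSubfield K] K) : K →+* K) Λ
      (ψ.comp (AlgEquiv.restrictNormalHom E)) (ψ.comp (AlgEquiv.restrictNormalHom E) * η) := by
  classical
  have hchar : CharZero k := charZero_of_padic p (k := k)
  have hK4 : finrank ℚ K = 4 := by rw [← finrank_mul_finrank ℚ k₀ K, hd, hK]
  have hfdN : FiniteDimensional k₀ N := FiniteDimensional.right ℚ k₀ N
  have hfdK : FiniteDimensional K H := FiniteDimensional.right ℚ K H
  have hGKN : IsGalois K N := IsGalois.tower_top_of_isGalois k₀ K N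
  set θ : (N ≃ₐ[k₀] N) →* kˣ := ψ.comp (AlgEquiv.restrictNormalHom E) with hθdef
  -- the values of `θ`
  have hθval : ∀ (g : N ≃ₐ[k₀] N) (h : H ≃ₐ[K] H),
      (∀ x : H, g (algebraMap H N x) = algebraMap H N (h x)) → θ g = χ h := by
    intro g h hgh
    symm
    apply hχ h (g.restrictNormal E)
    intro x
    apply (algebraMap H N).injective
    rw [← hgh, ← IsScalarTower.algebraMap_apply E H N, ← IsScalarTower.algebraMap_apply E H N]
    exact (AlgEquiv.restrictNormal_commutes g E x).symm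
  have hfixK : ∀ (g : N ≃ₐ[k₀] N) (h : H ≃ₐ[K] H),
      (∀ x : H, g (algebraMap H N x) = algebraMap H N (h x)) →
      ∀ x : K, g (algebraMap K N x) = algebraMap K N x := by
    intro g h hgh x
    rw [IsScalarTower.algebraMap_apply K H N, hgh, AlgEquiv.commutes]
  have hc0 : Compat χ θ := hθval
  have hc1 : Compat χ (θ * η) := fun g h hgh ↦ by
    rw [MonoidHom.mul_apply, hη1 g (hfixK g h hgh), mul_one]
    exact hθval g h hgh
  -- the character is not trivial
  have hχ1 : χ ≠ 1 := by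
    intro h1
    apply hfail
    refine hLEO K H Ω p k ιinf ιp S χ Λ hK4 ?_ hS
    rw [← IsGalois.card_aut_eq_finrank, Nat.card_eq_one_iff_unique]
    refine ⟨⟨fun a b ↦ ?_⟩, ⟨1⟩⟩
    have htriv : ∀ a : H ≃ₐ[K] H, a = 1 := by
      intro a
      apply hgen
      obtain ⟨g, hg⟩ := AlgEquiv.restrictNormalHom_surjective (F := K) (K₁ := H) N a
      have hga : ∀ x : H, (g.restrictScalars k₀) (algebraMap H N x) = algebraMap H N (a x) := by
        intro x
        rw [← hg]
        exact (AlgEquiv.restrictNormal_commutes g H x).symm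
      have h2 := hθval _ a hga
      rw [h1] at h2
      have h3 : (g.restrictScalars k₀).restrictNormal E = 1 := by
        apply hψ
        rw [map_one]
        exact h2
      intro x
      apply (algebraMap H N).injective
      rw [← hga, ← IsScalarTower.algebraMap_apply E H N]
      have h4 := AlgEquiv.restrictNormal_commutes (g.restrictScalars k₀) E x
      rw [h3] at h4
      exact h4.symm
    rw [htriv a, htriv b]
  have hη : η ≠ 1 := by
    obtain ⟨g, hg⟩ := exists_not_trivial (k₀ := k₀) (K := K) (N := N) hK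
    intro h
    have h1 := hη2 g hg
    rw [h] at h1
    have h2 := congrArg (fun z : kˣ ↦ (z : k)) h1
    have h3 : (1 : k) = -1 := h2
    have h4 : (2 : k) = 0 := by linear_combination h3
    exact two_ne_zero h4
  have hθθ : θ ≠ θ * η := by
    intro h
    apply hη
    ext g
    have h1 : θ g = θ g * η g := DFunLike.congr_fun h g
    have h2 : η g = 1 := mul_left_cancel (a := θ g) (by rw [mul_one]; exact h1.symm)
    rw [h2]; rfl
  have hn0 := ne_one_of_compat χ θ hc0 hχ1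
  have hn1 := ne_one_of_compat χ (θ * η) hc1 hχ1
  refine ⟨hn0, hn1, ?_⟩
  refine hRL k₀ K H N Ω p k ιinf ιp S χ Λ θ (θ * η) _ (fun φ ↦ ?_) hd hK hS hχ1 hc0 hc1 hθθ
    (fun _ ↦ ⟨hn0, hn1⟩) hfail
  ext x
  exact IsCMField.complexEmbedding_complexConj _ φ x

/-- **The abstract theorem**: `K₁` and `K₂` do not both fail. -/
theorem abs (hRL₁ : S_RL.{u, u₁, u₂, v, w, x}) (hRL₂ : S_RL.{u, u₃, u₄, v, w, x})
    (hLEO₁ : S_LEO.{u₁, u₂, w, x}) (hLEO₂ : S_LEO.{u₃, u₄, w, x})
    (hSIX : S_SIX.{w, x, w, v}) (hTR : S_TRANS.{w, x, w, v}) (hGA1 : S_GA1.{w, x, v})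
    (hGA7 : S_GA7.{u, v, 0}) (hGA7q : S_GA7.{0, u, 0}) (hAC : S_AC.{u, v})
    [IsAlgClosed Ω] [Algebra.IsAlgebraic ℚ Ω] (p : ℕ) [Fact p.Prime] (k : Type x) [NormedField k]
    [NormedAlgebra ℚ_[p] k] [IsUltrametricDist k] [CompleteSpace k] [IsAlgClosed k]
    (hd : finrank ℚ k₀ = 2) (hK₁ : finrank k₀ K₁ = 2) (hK₂ : finrank k₀ K₂ = 2)
    (hne : ∃ x : K₂, algebraMap K₂ N x ∉ (algebraMap K₁ N).range)
    (hgen₁ : ∀ h : H₁ ≃ₐ[K₁] H₁, (∀ x : E, h (algebraMap E H₁ x) = algebraMap E H₁ x) → h = 1)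
    (hgen₂ : ∀ h : H₂ ≃ₐ[K₂] H₂, (∀ x : E, h (algebraMap E H₂ x) = algebraMap E H₂ x) → h = 1)
    (ψ : (E ≃ₐ[k₀] E) →* kˣ) (hψ : Function.Injective ψ)
    (χ₁ : (H₁ ≃ₐ[K₁] H₁) →* kˣ) (χ₂ : (H₂ ≃ₐ[K₂] H₂) →* kˣ)
    (hχ₁ : ∀ (h : H₁ ≃ₐ[K₁] H₁) (g₀ : E ≃ₐ[k₀] E),
      (∀ x : E, h (algebraMap E H₁ x) = algebraMap E H₁ (g₀ x)) → χ₁ h = ψ g₀)
    (hχ₂ : ∀ (h : H₂ ≃ₐ[K₂] H₂) (g₀ : E ≃ₐ[k₀] E),
      (∀ x : E, h (algebraMap E H₂ x) = algebraMap E H₂ (g₀ x)) → χ₂ h = ψ g₀)
    (hE : (¬ IsTotallyReal E ∧ ¬ IsTotallyComplex E) ∨ IsTotallyComplex k₀)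
    (ιinf₁ ιinf₂ : Ω →+* ℂ) (ιp₁ ιp₂ : Ω →+* k) (S₁ : Set (K₁ →+* ℂ)) (S₂ : Set (K₂ →+* ℂ))
    (Λ₁ Λ₂ : IwasawaLog p k) (hS₁ : IsCMType S₁) (hS₂ : IsCMType S₂)
    (hf₁ : ¬ InjectiveOn (finrank K₁ H₁) χ₁ unitsHom (logSigma ιinf₁ ιp₁ S₁ Λ₁))
    (hf₂ : ¬ InjectiveOn (finrank K₂ H₂) χ₂ unitsHom (logSigma ιinf₂ ιp₂ S₂ Λ₂)) : False := by
  classical
  have hchar : CharZero k := charZero_of_padic p (k := k)
  have hfdN : FiniteDimensional k₀ N := FiniteDimensional.right ℚ k₀ N
  let _ : Fintype (N ≃ₐ[k₀] N) := Fintype.ofFinite _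
  obtain ⟨η₁, hη11, hη12⟩ := exists_eta (k₀ := k₀) (K := K₁) (N := N) k hK₁
  obtain ⟨η₂, hη21, hη22⟩ := exists_eta (k₀ := k₀) (K := K₂) (N := N) k hK₂
  obtain ⟨hn0, hn1, hr₁⟩ := rel_of_fail (E := E) hRL₁ hLEO₁ p k hd hK₁ hgen₁ ψ hψ χ₁ hχ₁ η₁ hη11
    hη12 ιinf₁ ιp₁ S₁ Λ₁ hS₁ hf₁
  obtain ⟨-, hn2, hr₂⟩ := rel_of_fail (E := E) hRL₂ hLEO₂ p k hd hK₂ hgen₂ ψ hψ χ₂ hχ₂ η₂ hη21
    hη22 ιinf₂ ιp₂ S₂ Λ₂ hS₂ hf₂
  set θ : (N ≃ₐ[k₀] N) →* kˣ := ψ.comp (AlgEquiv.restrictNormalHom E) with hθdef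
  have hr₂' : REL k₀ K₂ N ((IsCMField.complexConj K₂ : K₂ ≃ₐ[maximalRealSubfield K₂] K₂) :
      K₂ →+* K₂) Λ₁ θ (θ * η₂) := by
    intro σ σ' hσ
    obtain ⟨s, hs, h1, h2⟩ := hr₂ σ σ' hσ
    refine ⟨s, hs, fun v w ↦ ?_, h2⟩
    rw [logUnits_unique p ιp₁ Λ₁ Λ₂ σ, logUnits_unique p ιp₁ Λ₁ Λ₂ σ']
    exact h1 v w
  have htwo : (1 : kˣ) ≠ -1 := by
    intro h1
    have h2 := congrArg (fun z : kˣ ↦ (z : k)) h1
    have h3 : (1 : k) = -1 := h2
    have h4 : (2 : k) = 0 := by linear_combination h3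
    exact two_ne_zero h4
  -- the three characters are different
  obtain ⟨g₁, hg₁⟩ := exists_not_trivial (k₀ := k₀) (K := K₁) (N := N) hK₁
  obtain ⟨g₂, hg₂⟩ := exists_not_trivial (k₀ := k₀) (K := K₂) (N := N) hK₂
  obtain ⟨x₂, hx₂⟩ := hne
  obtain ⟨g, hgK, hgx⟩ := exists_separate (k₀ := k₀) (K := K₁) (N := N) x₂ hx₂
  have h01 : θ ≠ θ * η₁ := by
    intro h
    have h1 : θ g₁ = θ g₁ * η₁ g₁ := DFunLike.congr_fun h g₁
    rw [hη12 g₁ hg₁] at h1
    exact htwo (mul_left_cancel (a := θ g₁) (by rw [mul_one]; exact h1))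
  have h02 : θ ≠ θ * η₂ := by
    intro h
    have h1 : θ g₂ = θ g₂ * η₂ g₂ := DFunLike.congr_fun h g₂
    rw [hη22 g₂ hg₂] at h1
    exact htwo (mul_left_cancel (a := θ g₂) (by rw [mul_one]; exact h1))
  have h12 : θ * η₁ ≠ θ * η₂ := by
    intro h
    have h1 : θ g * η₁ g = θ g * η₂ g := DFunLike.congr_fun h g
    rw [hη11 g hgK, hη22 g ⟨x₂, hgx⟩] at h1
    exact htwo (mul_left_cancel h1)
  refine fin (θ := ![θ, θ * η₁, θ * η₂]) (K₁ := K₁) (K₂ := K₂) hSIX hTR hGA1 hGA7 hAC p k ιp₁ Λ₁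
    hd _ _ (fun φ ↦ ?_) ?_ hr₁ hr₂' ?_
  · ext x
    exact IsCMField.complexEmbedding_complexConj _ φ x
  · intro i j hij
    fin_cases i <;> fin_cases j <;>
      first
        | rfl
        | exact absurd hij h01
        | exact absurd hij h02
        | exact absurd hij h12
        | exact absurd hij.symm h01
        | exact absurd hij.symm h02
        | exact absurd hij.symm h12
  · rcases hE with ⟨hr, hc⟩ | hTC
    · right
      obtain ⟨φ, hφ⟩ : ∃ φ : E →+* ℂ, ComplexEmbedding.conjugate φ = φ := by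
        by_contra hcon
        push Not at hcon
        apply hc
        refine ⟨fun v ↦ ?_⟩
        rw [← InfinitePlace.not_isReal_iff_isComplex]
        intro hv
        exact hcon _ (InfinitePlace.isReal_iff.mp hv)
      obtain ⟨φ', hφ'⟩ : ∃ φ : E →+* ℂ, ComplexEmbedding.conjugate φ ≠ φ := by
        by_contra hcon
        push Not at hcon
        apply hr
        refine ⟨fun v ↦ ?_⟩
        rw [InfinitePlace.isReal_iff]
        exact hcon _
      obtain ⟨ρ, hρ⟩ := exists_extend_embedding (H := N) φ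
      obtain ⟨ρ', hρ'⟩ := exists_extend_embedding (H := N) φ'
      have hreal : ComplexEmbedding.conjugate (φ.comp (algebraMap k₀ E)) =
          φ.comp (algebraMap k₀ E) := by
        rw [← ComplexEmbedding.conjugate_comp, hφ]
      have hreal' : ComplexEmbedding.conjugate (φ'.comp (algebraMap k₀ E)) =
          φ'.comp (algebraMap k₀ E) := by
        have hq : Algebra.IsQuadraticExtension ℚ k₀ := ⟨hd⟩
        obtain ⟨a, ha⟩ := hGA7q ℚ k₀ ℂ (φ.comp (algebraMap k₀ E)) (φ'.comp (algebraMap k₀ E))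
          (Subsingleton.elim _ _)
        rw [ha, ← ComplexEmbedding.conjugate_comp, hreal]
      obtain ⟨c, hc'⟩ := hGA7 k₀ N ℂ ρ (ComplexEmbedding.conjugate ρ) (by
        rw [ComplexEmbedding.conjugate_comp, IsScalarTower.algebraMap_eq k₀ E N,
          ← RingHom.comp_assoc, hρ, hreal])
      obtain ⟨c', hc''⟩ := hGA7 k₀ N ℂ ρ' (ComplexEmbedding.conjugate ρ') (by
        rw [ComplexEmbedding.conjugate_comp, IsScalarTower.algebraMap_eq k₀ E N,
          ← RingHom.comp_assoc, hρ', hreal'])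
      -- the values of `θ`
      have hθc : θ c = 1 := by
        have h1 : c.restrictNormal E = 1 := by
          ext x
          apply φ.injective
          have h2 := AlgEquiv.restrictNormal_commutes c E x
          have h3 := RingHom.congr_fun hc' (algebraMap E N x)
          have h4 : ∀ z : E, ρ (algebraMap E N z) = φ z := fun z ↦ RingHom.congr_fun hρ z
          have h5 : star (ρ (algebraMap E N x)) = ρ (c (algebraMap E N x)) := h3
          have h6 : star (φ x) = φ x := RingHom.congr_fun hφ x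
          rw [← h2, h4, h4, h6] at h5
          exact h5.symm
        show ψ (c.restrictNormal E) = 1
        rw [h1, map_one]
      have hθc' : θ c' = -1 := by
        have h1 : c'.restrictNormal E ≠ 1 := by
          intro h1
          apply hφ'
          ext x
          have h2 := AlgEquiv.restrictNormal_commutes c' E x
          have h3 := RingHom.congr_fun hc'' (algebraMap E N x)
          have h4 : ∀ z : E, ρ' (algebraMap E N z) = φ' z := fun z ↦ RingHom.congr_fun hρ' z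
          have h5 : star (ρ' (algebraMap E N x)) = ρ' (c' (algebraMap E N x)) := h3
          rw [← h2, h4, h4, h1] at h5
          exact h5
        have h2 : θ c' ≠ 1 := by
          intro h2
          apply h1
          apply hψ
          rw [map_one]
          exact h2
        have h3 : c' * c' = 1 := by
          ext x
          apply ρ'.injective
          have h4 : ∀ z, star (ρ' z) = ρ' (c' z) := fun z ↦ RingHom.congr_fun hc'' z
          show ρ' (c' (c' x)) = ρ' x
          rw [← h4, ← h4, star_star]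
        have h4 : θ c' * θ c' = 1 := by rw [← map_mul, h3, map_one]
        have h5 : ((θ c' : kˣ) : k) * ((θ c' : kˣ) : k) = 1 := by
          rw [← Units.val_mul, h4, Units.val_one]
        rcases mul_self_eq_one_iff.mp h5 with h6 | h6
        · exact absurd (Units.ext h6) h2
        · exact Units.ext h6
      refine ⟨ρ, ρ', c, c', hc', hc'', hθc, hθc', ?_, ?_, ?_, ?_⟩
      · show θ c * η₁ c = -1
        rw [hθc, hη12 c (exists_moved ρ c hc'), one_mul]
      · show θ c' * η₁ c' = 1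
        rw [hθc', hη12 c' (exists_moved ρ' c' hc''), neg_mul_neg, one_mul]
      · show θ c * η₂ c = -1
        rw [hθc, hη22 c (exists_moved ρ c hc'), one_mul]
      · show θ c' * η₂ c' = 1
        rw [hθc', hη22 c' (exists_moved ρ' c' hc''), neg_mul_neg, one_mul]
    · left
      refine ⟨hTC, fun j ↦ ?_⟩
      fin_cases j
      · exact hn0
      · exact hn1
      · exact hn2

end main

end Pool.Agent.Helper42.SLC
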