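import Pool.Agent.Helper42.SLC.Goals

/-!
# Project SL, at most one exceptional field: two relations are contradictory
-/

namespace Pool.Agent.Helper42.SLC

open Pool.Agent.Helper17.SL
open Pool.Agent.Helper51.SigLeo Pool.Agent.Helper51.SixExp NumberField Module TensorProduct

set_option linter.unusedSectionVars false

universe u v w x y z u₁ u₂

/-- Descent of the values of three characters. -/
theorem descent3 (hGA1 : S_GA1.{w, x, v}) {N : Type v} [Field N] [NumberField N]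
    {k₀ : Type u} [Field k₀] [NumberField k₀] [Algebra k₀ N] {Ω : Type w} [Field Ω] [CharZero Ω]
    [IsAlgClosed Ω] {k : Type x} [Field k] (ιp : Ω →+* k) (θ : Fin 3 → (N ≃ₐ[k₀] N) →* kˣ) :
    ∃ (E : IntermediateField ℚ Ω) (_ : NumberField E) (θ' : Fin 3 → (N ≃ₐ[k₀] N) →* Eˣ),
      ∀ j g, ιp (((θ' j g : Eˣ) : E) : Ω) = θ j g := by
  classical
  let χ : (Fin 3 → (N ≃ₐ[k₀] N)) →* kˣ :=
    { toFun := fun g ↦ ∏ j, θ j (g j)
      map_one' := by simp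
      map_mul' := fun g g' ↦ by simp [Finset.prod_mul_distrib] }
  obtain ⟨E, hE, χ', hχ'⟩ := hGA1 Ω k ιp (Fin 3 → (N ≃ₐ[k₀] N)) χ
  refine ⟨E, hE, fun j ↦ χ'.comp (MonoidHom.mulSingle (fun _ : Fin 3 ↦ (N ≃ₐ[k₀] N)) j),
    fun j g ↦ ?_⟩
  have h1 := hχ' (Pi.mulSingle j g)
  have h2 : χ (Pi.mulSingle j g) = θ j g := by
    show ∏ i, θ i (Pi.mulSingle (M := fun _ : Fin 3 ↦ (N ≃ₐ[k₀] N)) j g i) = θ j g
    rw [Finset.prod_eq_single j]
    · rw [Pi.mulSingle_eq_same]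
    · intro i _ hij
      rw [Pi.mulSingle_eq_of_ne hij, map_one]
    · intro h; exact absurd (Finset.mem_univ _) h
  rw [h2] at h1
  exact h1

section

variable {k₀ : Type u} {N : Type v} {Ω : Type w} {K₁ : Type u₁} {K₂ : Type u₂} [Field k₀]
  [NumberField k₀] [Field N] [NumberField N] [Algebra k₀ N] [IsGalois k₀ N]
  [Fintype (N ≃ₐ[k₀] N)] [Field Ω] [CharZero Ω] [Field K₁] [Algebra K₁ N] [Field K₂]
  [Algebra K₂ N]

/-- The relations of two fields are contradictory. -/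
theorem fin (hSIX : S_SIX.{w, x, w, v}) (hTR : S_TRANS.{w, x, w, v}) (hGA1 : S_GA1.{w, x, v})
    (hGA7 : S_GA7.{u, v, 0}) (hAC : S_AC.{u, v}) [IsAlgClosed Ω] [Algebra.IsAlgebraic ℚ Ω]
    (p : ℕ) [Fact p.Prime] (k : Type x) [NormedField k] [NormedAlgebra ℚ_[p] k]
    [IsUltrametricDist k] [CompleteSpace k] (ιp : Ω →+* k) (Λ : IwasawaLog p k)
    (hd : finrank ℚ k₀ = 2) (c₁ : K₁ →+* K₁) (c₂ : K₂ →+* K₂)
    (hc₁ : ∀ φ : K₁ →+* ℂ, φ.comp c₁ = ComplexEmbedding.conjugate φ)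
    (θ : Fin 3 → (N ≃ₐ[k₀] N) →* kˣ) (hθ : Function.Injective θ)
    (h₁ : REL k₀ K₁ N c₁ Λ (θ 0) (θ 1)) (h₂ : REL k₀ K₂ N c₂ Λ (θ 0) (θ 2))
    (hsig : (IsTotallyComplex k₀ ∧ ∀ j, θ j ≠ 1) ∨
      (∃ (ρ ρ' : N →+* ℂ) (c c' : N ≃ₐ[k₀] N),
        ComplexEmbedding.conjugate ρ = ρ.comp (c : N →+* N) ∧
        ComplexEmbedding.conjugate ρ' = ρ'.comp (c' : N →+* N) ∧ θ 0 c = 1 ∧ θ 0 c' = -1 ∧
        θ 1 c = -1 ∧ θ 1 c' = 1 ∧ θ 2 c = -1 ∧ θ 2 c' = 1)) : False := by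
  classical
  have hchar : CharZero k := charZero_of_padic p (k := k)
  obtain ⟨E, hE, θ', hθ'⟩ := descent3 hGA1 ιp θ
  set lam : E →+* Ω := algebraMap E Ω with hlam
  set j : E →+* k := ιp.comp lam with hjdef
  have hj : ∀ i g, j ((θ' i g : Eˣ) : E) = θ i g := hθ'
  have hθ'inj : Function.Injective θ' := by
    intro i i' h
    apply hθ
    ext g
    rw [← hj, ← hj, h]
  -- signs
  have hsign : ∀ s : k, (s = 1 ∨ s = -1) → ∃ s' : E, j s' = s ∧ s' ≠ 0 := by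
    rintro s (rfl | rfl)
    · exact ⟨1, map_one j, one_ne_zero⟩
    · exact ⟨-1, by rw [map_neg, map_one], neg_ne_zero.mpr one_ne_zero⟩
  -- the end of the proof
  have main : ∀ (τ₀ τ₁ : N →+* Ω) (ι' : Ω →+* ℂ),
      τ₀.comp (algebraMap k₀ N) ≠ τ₁.comp (algebraMap k₀ N) →
      (∀ s : ℂ, s ≠ 0 → (∀ t : N ≃ₐ[k₀] N, ComplexEmbedding.conjugate (ι'.comp τ₁) =
          (ι'.comp τ₀).comp (t : N →+* N) →
            s * (((ι'.comp lam) ((θ' 1 t : Eˣ) : E)) : ℂ) = -((ι'.comp lam) ((θ' 0 t : Eˣ) : E))) →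
        ∃ v : Fin 3 → Additive (𝓞 N)ˣ,
          s * tw ((Units.map ((ι'.comp lam : E →+* ℂ) : E →* ℂ)).comp (θ' 0))
              (archLog (ι'.comp τ₀)) (v 0) *
            tw ((Units.map ((ι'.comp lam : E →+* ℂ) : E →* ℂ)).comp (θ' 1))
              (archLog (ι'.comp τ₁)) (v 1) -
            tw ((Units.map ((ι'.comp lam : E →+* ℂ) : E →* ℂ)).comp (θ' 0))
              (archLog (ι'.comp τ₁)) (v 0) *
            tw ((Units.map ((ι'.comp lam : E →+* ℂ) : E →* ℂ)).comp (θ' 1))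
              (archLog (ι'.comp τ₀)) (v 1) ≠ 0 ∧
          (tw ((Units.map ((ι'.comp lam : E →+* ℂ) : E →* ℂ)).comp (θ' 2))
              (archLog (ι'.comp τ₀)) (v 2) ≠ 0 ∨
            tw ((Units.map ((ι'.comp lam : E →+* ℂ) : E →* ℂ)).comp (θ' 2))
              (archLog (ι'.comp τ₁)) (v 2) ≠ 0)) → False := by
    intro τ₀ τ₁ ι' hne harch
    have hneσ : (ιp.comp τ₀).comp (algebraMap k₀ N) ≠ (ιp.comp τ₁).comp (algebraMap k₀ N) := by
      intro h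
      apply hne
      ext y
      apply ιp.injective
      exact RingHom.congr_fun h y
    obtain ⟨s₁, hs₁, hr₁, ht₁⟩ := h₁ _ _ hneσ
    obtain ⟨s₂, hs₂, hr₂, ht₂⟩ := h₂ _ _ hneσ
    obtain ⟨s₁', hs₁', hs₁0⟩ := hsign s₁ hs₁
    obtain ⟨s₂', hs₂', hs₂0⟩ := hsign s₂ hs₂
    obtain ⟨v, hdet, hv2⟩ := harch ((ι'.comp lam) s₁') (by
      rw [Ne, map_eq_zero]; exact hs₁0) (fun t ht ↦ by
      rw [← map_mul, ← map_neg]
      congr 1
      apply j.injective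
      rw [map_mul, map_neg, hj, hj, hs₁']
      apply ht₁ t
      have h3 : (τ₁.comp (algebraMap K₁ N)).comp c₁ =
          (τ₀.comp (t : N →+* N)).comp (algebraMap K₁ N) := by
        ext y
        apply ι'.injective
        have h4 := RingHom.congr_fun (hc₁ ((ι'.comp τ₁).comp (algebraMap K₁ N))) y
        have h5 := RingHom.congr_fun ht (algebraMap K₁ N y)
        exact h4.trans h5
      ext y
      exact congrArg ιp (RingHom.congr_fun h3 y))
    refine core hSIX hTR p k ιp Λ lam (ι'.comp lam) θ' hθ'inj ![τ₀, τ₁] ι' v ![1, s₁', s₂'] rfl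
      ?_ ?_ ?_
    · have hPhi : ∀ (i : Fin 3) (τ : N →+* Ω) (u : Additive (𝓞 N)ˣ),
          Phi j (logUnits Λ (ιp.comp τ)) (tchi (θ' i) u) = tw (θ i) (logUnits Λ (ιp.comp τ)) u :=
        fun i τ u ↦ Phi_eq_tw j (θ' i) (θ i) (hj i) _ u
      intro q
      fin_cases q
      · show j 1 * Phi j (logUnits Λ (ιp.comp τ₀)) (tchi (θ' 0) (v 0)) *
          Phi j (logUnits Λ (ιp.comp τ₁)) (tchi (θ' 0) (v 0)) =
          Phi j (logUnits Λ (ιp.comp τ₁)) (tchi (θ' 0) (v 0)) *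
          Phi j (logUnits Λ (ιp.comp τ₀)) (tchi (θ' 0) (v 0))
        rw [map_one, one_mul, mul_comm]
      · show j s₁' * Phi j (logUnits Λ (ιp.comp τ₀)) (tchi (θ' 0) (v 0)) *
          Phi j (logUnits Λ (ιp.comp τ₁)) (tchi (θ' 1) (v 1)) =
          Phi j (logUnits Λ (ιp.comp τ₁)) (tchi (θ' 0) (v 0)) *
          Phi j (logUnits Λ (ιp.comp τ₀)) (tchi (θ' 1) (v 1))
        rw [hPhi, hPhi, hPhi, hPhi, hs₁']
        exact hr₁ _ _
      · show j s₂' * Phi j (logUnits Λ (ιp.comp τ₀)) (tchi (θ' 0) (v 0)) *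
          Phi j (logUnits Λ (ιp.comp τ₁)) (tchi (θ' 2) (v 2)) =
          Phi j (logUnits Λ (ιp.comp τ₁)) (tchi (θ' 0) (v 0)) *
          Phi j (logUnits Λ (ιp.comp τ₀)) (tchi (θ' 2) (v 2))
        rw [hPhi, hPhi, hPhi, hPhi, hs₂']
        exact hr₂ _ _
    · show (ι'.comp lam) s₁' * Phi (ι'.comp lam) (archLog (ι'.comp τ₀)) (tchi (θ' 0) (v 0)) *
        Phi (ι'.comp lam) (archLog (ι'.comp τ₁)) (tchi (θ' 1) (v 1)) -
        Phi (ι'.comp lam) (archLog (ι'.comp τ₁)) (tchi (θ' 0) (v 0)) *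
        Phi (ι'.comp lam) (archLog (ι'.comp τ₀)) (tchi (θ' 1) (v 1)) ≠ 0
      rw [Phi_eq_tw', Phi_eq_tw', Phi_eq_tw', Phi_eq_tw']
      exact hdet
    · show Phi (ι'.comp lam) (archLog (ι'.comp τ₀)) (tchi (θ' 2) (v 2)) ≠ 0 ∨
        Phi (ι'.comp lam) (archLog (ι'.comp τ₁)) (tchi (θ' 2) (v 2)) ≠ 0
      rw [Phi_eq_tw', Phi_eq_tw']
      exact hv2
  obtain ⟨ρ₀⟩ : Nonempty (N →+* ℂ) := inferInstance
  obtain ⟨τ⟩ : Nonempty (N →+* Ω) := inferInstance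
  obtain ⟨ι', -⟩ := exists_comp_eq τ ρ₀
  rcases hsig with ⟨hTC, hne1⟩ | ⟨ρ, ρ', c, c', hρ, hρ', h0c, h0c', h1c, h1c', h2c, h2c'⟩
  · obtain ⟨s₁, s₂, hs⟩ := exists_two_embeddings k₀ Ω hd
    obtain ⟨s, hs'⟩ : ∃ s : k₀ →+* Ω, τ.comp (algebraMap k₀ N) ≠ s := by
      by_cases h : τ.comp (algebraMap k₀ N) = s₁
      · exact ⟨s₂, fun h' ↦ hs (h.symm.trans h')⟩
      · exact ⟨s₁, h⟩
    obtain ⟨τ₁, hτ₁⟩ := exists_extend_embedding (H := N) s
    have hne : τ.comp (algebraMap k₀ N) ≠ τ₁.comp (algebraMap k₀ N) := by rw [hτ₁]; exact hs'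
    refine main τ τ₁ ι' hne fun s hs0 hst ↦ ?_
    refine hAC k₀ N (fun i ↦ (Units.map ((ι'.comp lam : E →+* ℂ) : E →* ℂ)).comp (θ' i))
      (ι'.comp τ) (ι'.comp τ₁) s hd hs0 (Or.inl ⟨hTC, ?_, ?_, ?_⟩)
    · intro h
      apply hne
      ext y
      apply ι'.injective
      exact RingHom.congr_fun h y
    · intro i h
      apply hne1 i
      ext g
      rw [← hj]
      have h3 : (ι'.comp lam) ((θ' i g : Eˣ) : E) = 1 :=
        congrArg (fun z : ℂˣ ↦ (z : ℂ)) (DFunLike.congr_fun h g)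
      have h4 : ((θ' i g : Eˣ) : E) = 1 := (ι'.comp lam).injective (by rw [h3, map_one])
      rw [h4, map_one]; rfl
    · intro t ht
      exact hst t ht
  · obtain ⟨τ₀, hτ₀⟩ := exists_lift_embedding ι' ρ
    obtain ⟨τ₁, hτ₁⟩ := exists_lift_embedding ι' ρ'
    have hval : ∀ (i : Fin 3) (g : N ≃ₐ[k₀] N), (θ i g = 1 →
        ((Units.map ((ι'.comp lam : E →+* ℂ) : E →* ℂ)).comp (θ' i)) g = 1) ∧ (θ i g = -1 →
        ((Units.map ((ι'.comp lam : E →+* ℂ) : E →* ℂ)).comp (θ' i)) g = -1) := by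
      intro i g
      constructor
      · intro h
        apply Units.ext
        show (ι'.comp lam) ((θ' i g : Eˣ) : E) = 1
        have h4 : ((θ' i g : Eˣ) : E) = 1 := j.injective (by rw [hj, h, map_one]; rfl)
        rw [h4, map_one]
      · intro h
        apply Units.ext
        show (ι'.comp lam) ((θ' i g : Eˣ) : E) = -1
        have h4 : ((θ' i g : Eˣ) : E) = -1 := j.injective (by
          rw [hj, h, map_neg, map_one]; rfl)
        rw [h4, map_neg, map_one]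
    have hne : τ₀.comp (algebraMap k₀ N) ≠ τ₁.comp (algebraMap k₀ N) := by
      intro h
      obtain ⟨g, hg⟩ := hGA7 k₀ N ℂ ρ ρ' (by
        rw [← hτ₀, ← hτ₁, RingHom.comp_assoc, RingHom.comp_assoc, h])
      have h5 : c * g = g * c' := by
        ext y
        apply ρ.injective
        have h6 := RingHom.congr_fun hρ (g y)
        have h7 := RingHom.congr_fun hρ' y
        have h8 : ∀ z, ρ' z = ρ (g z) := fun z ↦ RingHom.congr_fun hg z
        have h9 : star (ρ (g y)) = ρ (c (g y)) := h6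
        have h10 : star (ρ' y) = ρ' (c' y) := h7
        show ρ (c (g y)) = ρ (g (c' y))
        rw [← h8, ← h9, ← h10, h8]
      have h11 := congrArg (θ 0) h5
      rw [map_mul, map_mul, h0c, h0c', one_mul] at h11
      have h12 : (1 : kˣ) = -1 := mul_left_cancel (a := θ 0 g) (by rw [mul_one]; exact h11)
      have h13 := congrArg (fun z : kˣ ↦ (z : k)) h12
      have h14 : (1 : k) = -1 := h13
      have h15 : (2 : k) = 0 := by linear_combination h14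
      exact two_ne_zero h15
    refine main τ₀ τ₁ ι' hne fun s hs0 hst ↦ ?_
    refine hAC k₀ N (fun i ↦ (Units.map ((ι'.comp lam : E →+* ℂ) : E →* ℂ)).comp (θ' i))
      (ι'.comp τ₀) (ι'.comp τ₁) s hd hs0 (Or.inr ⟨c, c', ?_, ?_, (hval 0 c).1 h0c,
      (hval 0 c').2 h0c', (hval 1 c).2 h1c, (hval 1 c').1 h1c', (hval 2 c).2 h2c,
      (hval 2 c').1 h2c'⟩)
    · rw [hτ₀]; exact hρ
    · rw [hτ₁]; exact hρ'

end

end Pool.Agent.Helper42.SLC
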