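import Pool.Agent.Helper42.SLC.Core

/-!
# Project SL, at most one exceptional field: the goals

`k₀` is a quadratic field, `K` a quadratic extension of `k₀` which is a CM field, `H/K` a finite
Galois extension, `N` a finite Galois extension of `k₀` containing `H`; `χ` is a character of
`Gal(H/K)`, and `θ`, `θ'` are characters of `Gal(N/k₀)` compatible with `χ`. The sums
`tw θ ℓ v = ∑_g θ(g⁻¹) ℓ(g v)` are defined in `Core.lean`, with the rules `tw_comp`,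
`tw_logUnits_comp`, `tw_archLog_comp`, `Phi_eq_tw`.
-/

namespace Pool.Agent.Helper42.SLC

open Pool.Agent.Helper17.SL
open Pool.Agent.Helper51.SigLeo Pool.Agent.Helper51.SixExp NumberField Module TensorProduct

universe u v w x y z

/-- The inclusion of the units of `H` in the units of `N`. -/
noncomputable def inclUnits (H N : Type*) [Field H] [Field N] [Algebra H N] :
    Additive (𝓞 H)ˣ →+ Additive (𝓞 N)ˣ :=
  AddMonoidHom.mk' (fun u ↦ .ofMul (Units.map (RingOfIntegers.mapRingHom (algebraMap H N)) u.toMul))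
    fun _ _ ↦ congrArg Additive.ofMul (map_mul _ _ _)

/-- `θ` and `χ` are compatible: if `g` extends `h` then `θ(g) = χ(h)`. -/
def Compat {k₀ K H N A : Type*} [Field k₀] [Field K] [Field H] [Field N] [Algebra k₀ N]
    [Algebra K H] [Algebra H N] [Field A] (χ : (H ≃ₐ[K] H) →* Aˣ) (θ : (N ≃ₐ[k₀] N) →* Aˣ) : Prop :=
  ∀ (g : N ≃ₐ[k₀] N) (h : H ≃ₐ[K] H), (∀ x : H, g (algebraMap H N x) = algebraMap H N (h x)) →
    θ g = χ h

/-- The relation attached to a failing field `K`; `c` is the complex conjugation of `K`. -/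
def REL (k₀ K N : Type*) [Field k₀] [Field K] [Field N] [Algebra k₀ N] [Algebra K N]
    [Fintype (N ≃ₐ[k₀] N)] (c : K →+* K) {p : ℕ} {k : Type*} [NormedField k] (Λ : IwasawaLog p k)
    (θ θ' : (N ≃ₐ[k₀] N) →* kˣ) : Prop :=
  ∀ σ σ' : N →+* k, σ.comp (algebraMap k₀ N) ≠ σ'.comp (algebraMap k₀ N) →
    ∃ s : k, (s = 1 ∨ s = -1) ∧
      (∀ v w, s * tw θ (logUnits Λ σ) v * tw θ' (logUnits Λ σ') w =
        tw θ (logUnits Λ σ') v * tw θ' (logUnits Λ σ) w) ∧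
      ∀ t : N ≃ₐ[k₀] N, (σ'.comp (algebraMap K N)).comp c =
        (σ.comp (t : N →+* N)).comp (algebraMap K N) → s * ((θ' t : kˣ) : k) = -((θ t : kˣ) : k)

/-- **NV** (archimedean non vanishing). `N/M` is Galois, `θ ≠ 1`, and `θ(c) = 1` if `c` is the
complex conjugation attached to `ρ` (it may not exist). Suppose `tw θ (archLog ρ) v = 0` for all
`v`. For a place `w` of `N` put `c w = (w.mult)⁻¹ * ∑_{g : place (ρ ∘ g) = w} θ(g⁻¹)`; then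
`∑_w c w (w.mult * log w(u)) = tw θ (archLog ρ) u = 0`, so `c` is constant (`PkGA2.cplx_rel` in
`Pool/Agent/Helper8/SL/GA2.lean`, from `log_relation_const`). The place of `ρ ∘ g'` is the place of
`ρ ∘ g` iff `g' = g` or `conj (ρ ∘ g) = ρ ∘ g'` (`InfinitePlace.mk_eq_iff`), i.e. `conj ρ = ρ ∘ c`
with `c = g' g⁻¹`, and then `θ(g'⁻¹) = θ(g⁻¹) θ(c)⁻¹ = θ(g⁻¹)`; the number `n` of these `g'` is `1`,
or it is `2` (when there is `c ≠ 1` with `conj ρ = ρ ∘ c`), and does not depend on `g`; nor does the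
multiplicity `m` of the place (`ρ ∘ g` is real iff `ρ` is real). So
`c (place (ρ ∘ g)) = (n / m) θ(g⁻¹)` does not depend on `g`, hence `θ = 1`, a contradiction. -/
def S_NV : Prop := ∀ (M : Type u) [Field M] (N : Type v) [Field N] [NumberField N] [Algebra M N]
  [Fintype (N ≃ₐ[M] N)] (θ : (N ≃ₐ[M] N) →* ℂˣ) (ρ : N →+* ℂ), θ ≠ 1 →
  (∀ c : N ≃ₐ[M] N, ComplexEmbedding.conjugate ρ = ρ.comp (c : N →+* N) → θ c = 1) →
  ∃ v, tw θ (archLog ρ) v ≠ 0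

/-- **NB1** (transfer by the norm). `v' = N_{N/H}(v)` (`RingOfIntegers.norm`), whose image in `N` is
the product of the `k v`, `k ∈ Gal(N/H)` (`Algebra.norm_eq_prod_automorphisms`; note that `N/H` is
Galois, `IsGalois.tower_top_of_isGalois`). Every `h ∈ Gal(H/K)` lifts to `N` (`H/K` and `N/K` are
normal, `AlgEquiv.restrictNormalHom_surjective`), the lifts of `h` are the `h' ∘ k` with `h'` a
fixed lift and `k ∈ Gal(N/H)`; so `∑_{g lifting h} θ(g⁻¹) ℓ(g v) = χ(h⁻¹) ℓ(h' ∑_k k v) =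
χ(h⁻¹) ℓ(h' (v')) = χ(h⁻¹) ℓ(incl (h v'))`. (Or: `∑_g F(g) = n⁻¹ ∑_g ∑_k F(g k)`, `n = [N : H]`,
the inner sum depends only on the restriction of `g` to `H`, and every fibre of the restriction
has `n` elements.) -/
def S_NB1 : Prop := ∀ (K : Type u) [Field K] (H : Type v) [Field H] [NumberField H] (N : Type w)
  [Field N] [NumberField N] [Algebra K H] [Algebra K N] [Algebra H N] [IsScalarTower K H N]
  [FiniteDimensional K N] [IsGalois K H] [IsGalois K N] [Fintype (H ≃ₐ[K] H)]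
  [Fintype (N ≃ₐ[K] N)] (A : Type x) [Field A] [CharZero A] (χ : (H ≃ₐ[K] H) →* Aˣ)
  (θ : (N ≃ₐ[K] N) →* Aˣ), Compat χ θ → ∀ v : Additive (𝓞 N)ˣ, ∃ v' : Additive (𝓞 H)ˣ,
    ∀ ℓ : Additive (𝓞 N)ˣ →+ A, tw θ ℓ v = tw χ (ℓ.comp (inclUnits H N)) v'

/-- **NB2** (cosets). `K/k₀` is quadratic (hence Galois, characteristic zero), `s ∈ Gal(N/k₀)` is not
trivial on `K`. Every `g ∈ Gal(N/k₀)` is in `Gal(N/K)` or in `Gal(N/K) s` (if `g` is not trivial on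
`K`, then `g = s` on `K`, since both are the nontrivial automorphism of `K/k₀`), and not in both.
`∑_{g ∈ Gal(N/K)} θ((g s)⁻¹) ℓ(g s v) = θ(s⁻¹) ∑_{g ∈ Gal(N/K)} θ(g⁻¹) ℓ(g (s v))`. -/
def S_NB2 : Prop := ∀ (k₀ : Type u) [Field k₀] (K : Type v) [Field K] (N : Type w) [Field N]
  [NumberField N] [Algebra k₀ K] [Algebra k₀ N] [Algebra K N] [IsScalarTower k₀ K N]
  [FiniteDimensional k₀ N] [IsGalois k₀ N] [Fintype (N ≃ₐ[k₀] N)] [Fintype (N ≃ₐ[K] N)]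
  (A : Type x) [Field A] (θ : (N ≃ₐ[k₀] N) →* Aˣ) (θK : (N ≃ₐ[K] N) →* Aˣ) (s : N ≃ₐ[k₀] N),
  finrank k₀ K = 2 → (∀ g : N ≃ₐ[K] N, θK g = θ (g.restrictScalars k₀)) →
  (∃ x : K, s (algebraMap K N x) ≠ algebraMap K N x) →
  ∀ (ℓ : Additive (𝓞 N)ˣ →+ A) (v : Additive (𝓞 N)ˣ),
    tw θ ℓ v = tw θK ℓ v + ((θ s⁻¹ : Aˣ) : A) * tw θK ℓ (unitsHom s v)

/-- **SGN** (two characters compatible with `χ`). Let `η = θ' / θ`, it is trivial on `Gal(N/K)`: an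
element of `Gal(N/K)` restricts to an `h ∈ Gal(H/K)` (`H/K` is normal), and `θ' = χ(h) = θ` there.
Let `g ∉ Gal(N/K)`; `K/k₀` is quadratic, so every element of `Gal(N/k₀)` is in `Gal(N/K)` or in
`g Gal(N/K)`, and `g ^ 2 ∈ Gal(N/K)`; so `η(g) ^ 2 = 1`, and `η(g) = 1` would give `η = 1`. -/
def S_SGN : Prop := ∀ (k₀ : Type u) [Field k₀] (K : Type v) [Field K] (H : Type w) [Field H]
  (N : Type x) [Field N] [NumberField N] [Algebra k₀ K] [Algebra K H] [Algebra H N]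
  [Algebra k₀ N] [Algebra K N] [IsScalarTower k₀ K N] [IsScalarTower K H N]
  [FiniteDimensional k₀ N] [IsGalois k₀ N] [IsGalois K H]
  (A : Type y) [Field A] (χ : (H ≃ₐ[K] H) →* Aˣ) (θ θ' : (N ≃ₐ[k₀] N) →* Aˣ),
  finrank k₀ K = 2 → Compat χ θ → Compat χ θ' → θ ≠ θ' →
  (∀ g : N ≃ₐ[k₀] N, (∀ x : K, g (algebraMap K N x) = algebraMap K N x) → θ' g = θ g) ∧
  (∀ g : N ≃ₐ[k₀] N, (∃ x : K, g (algebraMap K N x) ≠ algebraMap K N x) → θ' g = -θ g)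

/-- **FR1** (failure for `H/K`, on the level of `H`). As in `Pool/Agent/Helper17/SL/TargetA.lean`:
`GA1` gives `E`, `χ'`; the places of `K` below `ιinf ∘ τ₁`, `ιinf ∘ τ₂` are different (`S` is a CM
type, `InfinitePlace.mk_eq_iff`); `GA2` gives `u₁, u₂` with nonzero archimedean determinant, `GA4`
the structure of the `χ`-part, `GA5` the vanishing of the determinant for `u₁`, `u₂`; for general
`u`, `w` write `tchi χ' u = a tchi u₁ + b tchi u₂`, `tchi χ' w = c tchi u₁ + d tchi u₂`. -/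
def S_FR1 : Prop := ∀ (K : Type u) [Field K] [NumberField K] [IsTotallyComplex K] (H : Type v)
  [Field H] [NumberField H] [Algebra K H] [IsGalois K H] [Fintype (H ≃ₐ[K] H)] (Ω : Type w)
  [Field Ω] [CharZero Ω] [IsAlgClosed Ω] (p : ℕ) [Fact p.Prime] (k : Type x) [NormedField k]
  [NormedAlgebra ℚ_[p] k] [IsUltrametricDist k] [CompleteSpace k] (ιinf : Ω →+* ℂ) (ιp : Ω →+* k)
  (S : Set (K →+* ℂ)) (χ : (H ≃ₐ[K] H) →* kˣ) (Λ : IwasawaLog p k) (τ₁ τ₂ : H →+* Ω),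
  finrank ℚ K = 4 → IsCMType S → χ ≠ 1 →
  ¬ InjectiveOn (finrank K H) χ unitsHom (logSigma ιinf ιp S Λ) →
  ιinf.comp (τ₁.comp (algebraMap K H)) ∈ S → ιinf.comp (τ₂.comp (algebraMap K H)) ∈ S →
  τ₁.comp (algebraMap K H) ≠ τ₂.comp (algebraMap K H) → ∀ u w,
    tw χ (logUnits Λ (ιp.comp τ₁)) u * tw χ (logUnits Λ (ιp.comp τ₂)) w =
      tw χ (logUnits Λ (ιp.comp τ₂)) u * tw χ (logUnits Λ (ιp.comp τ₁)) w

/-- **FRN** (failure for `H/K`, on the level of `N`), from FR1, NB1, NB2. Let `θK` be the character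
`g ↦ θ(g)` of `Gal(N/K)` (also `θ'(g)`, both are `χ(g|H)`: use `AlgEquiv.restrictNormal`), and
`B_i v = tw θK (logUnits Λ (ιp ∘ τ_i)) v`; by NB1 and FR1, `B_1 v * B_2 w = B_2 v * B_1 w`. Let `s` be
an element of `Gal(N/k₀)` which is not trivial on `K` (it exists, `K/k₀` has degree `2` and `N/k₀` is
Galois). By NB2 `tw θ _ v = B v + θ(s⁻¹) B (s v)` and the same for `θ'`; expand. -/
def S_FRN : Prop := ∀ (k₀ : Type u) [Field k₀] (K : Type v) [Field K] [NumberField K]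
  [IsTotallyComplex K] (H : Type w) [Field H] [NumberField H] (N : Type x) [Field N]
  [NumberField N] [Algebra k₀ K] [Algebra K H] [Algebra H N] [Algebra k₀ N] [Algebra K N]
  [IsScalarTower k₀ K N] [IsScalarTower K H N] [FiniteDimensional k₀ N] [IsGalois k₀ N]
  [IsGalois K H] [Fintype (N ≃ₐ[k₀] N)] (Ω : Type y) [Field Ω] [CharZero Ω] [IsAlgClosed Ω]
  (p : ℕ) [Fact p.Prime] (k : Type z) [NormedField k] [NormedAlgebra ℚ_[p] k]
  [IsUltrametricDist k] [CompleteSpace k] (ιinf : Ω →+* ℂ) (ιp : Ω →+* k) (S : Set (K →+* ℂ))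
  (χ : (H ≃ₐ[K] H) →* kˣ) (Λ : IwasawaLog p k) (θ θ' : (N ≃ₐ[k₀] N) →* kˣ) (τ₁ τ₂ : N →+* Ω),
  finrank k₀ K = 2 → finrank ℚ K = 4 → IsCMType S → χ ≠ 1 → Compat χ θ → Compat χ θ' →
  ¬ InjectiveOn (finrank K H) χ unitsHom (logSigma ιinf ιp S Λ) →
  ιinf.comp (τ₁.comp (algebraMap K N)) ∈ S → ιinf.comp (τ₂.comp (algebraMap K N)) ∈ S →
  τ₁.comp (algebraMap K N) ≠ τ₂.comp (algebraMap K N) → ∀ v w,
    tw θ (logUnits Λ (ιp.comp τ₁)) v * tw θ' (logUnits Λ (ιp.comp τ₂)) w =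
      tw θ (logUnits Λ (ιp.comp τ₂)) v * tw θ' (logUnits Λ (ιp.comp τ₁)) w

/-- **NVP** (`p`-adic non vanishing), from NV, TRANS, GA1. `GA1` gives `E`, `lam : E → Ω` and an
`E`-valued character `θ₁` with `ιp (lam (θ₁ g)) = θ g`. Take any `ι' : Ω → ℂ` (`exists_comp_eq`
gives one with `ι' ∘ τ = ρ`) and `ε = ι' ∘ lam`. If all `tw θ (logUnits Λ (ιp ∘ τ)) v` vanish, TRANS
(see `htrans` in the proof of `core`) gives `Phi ε (archLog ρ) (tchi θ₁ v) = 0`, which is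
`tw (ε ∘ θ₁) (archLog ρ) v = 0` (`Phi_eq_tw'`), for all `v`, a contradiction with NV: `ε ∘ θ₁ ≠ 1`. -/
def S_NVP : Prop := ∀ (M : Type u) [Field M] (N : Type v) [Field N] [NumberField N] [Algebra M N]
  [Fintype (N ≃ₐ[M] N)] (Ω : Type w) [Field Ω] [CharZero Ω] [IsAlgClosed Ω]
  [Algebra.IsAlgebraic ℚ Ω] (p : ℕ) [Fact p.Prime] (k : Type x) [NormedField k]
  [NormedAlgebra ℚ_[p] k] [IsUltrametricDist k] [CompleteSpace k] (ιp : Ω →+* k)
  (Λ : IwasawaLog p k) (θ : (N ≃ₐ[M] N) →* kˣ) (τ : N →+* Ω) (ρ : N →+* ℂ), θ ≠ 1 →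
  (∀ c : N ≃ₐ[M] N, ComplexEmbedding.conjugate ρ = ρ.comp (c : N →+* N) → θ c = 1) →
  ∃ v, tw θ (logUnits Λ (ιp.comp τ)) v ≠ 0

/-- **RL** (failure for `K` gives the relation `REL`), from FRN, SGN, NVP, GA7. `c` is the complex
conjugation of `K`; `θ, θ' ≠ 1` if `k₀` is totally complex. A CM type `S` of the quartic CM field
`K` has two elements `φ₁ ≠ φ₂` (the embeddings of `K` come in two pairs `φ, φ ∘ c`); let `τ₁, τ₂`
be embeddings of `N` in `Ω` with `ιinf τ_i = φ_i` on `K` (`exists_lift_embedding`,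
`exists_extend_embedding`). By FRN `tw θ σ₁ v * tw θ' σ₂ w = tw θ σ₂ v * tw θ' σ₁ w`, `σ_i = ιp τ_i`.

(1) If `τ₁ = τ₂` on `k₀`: by GA7 (applied to `N/k₀` and the field `Ω`) `τ₂ = τ₁ ∘ t`,
`t ∈ Gal(N/k₀)`, and `t` is not trivial on `K`, so `θ'(t) = -θ(t)` by SGN, and `tw_logUnits_comp`
gives `2 θ(t) tw θ σ₁ v * tw θ' σ₁ w = 0` for all `v`, `w`. Here `k₀` is totally complex: otherwise it
is totally real (it is quadratic: one of its embeddings `φ₁|k₀` is real, so both are), and `φ₂ = φ₁`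
on `k₀` gives `φ₂ = φ₁` or `conj φ₁` on `K` (`eq_or_eq_conjugate` in
`Pool/Agent/Helper51/SixExp/CM.lean`), impossible for a CM type. So `θ, θ' ≠ 1` and there is no
`c' ∈ Gal(N/k₀)` with `conj ρ = ρ ∘ c'` (restrict to `k₀`), and NVP is a contradiction.

(2) If `τ₁ ≠ τ₂` on `k₀`: let `σ ≠ σ'` on `k₀`. The field `k₀` has two embeddings in `k`, so after
exchanging `1` and `2` (the relation is symmetric) `σ = σ₁`, `σ' = σ₂` on `k₀`, and by GA7 (for `N/k₀`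
and the field `k`) `σ = σ₁ ∘ g₁`, `σ' = σ₂ ∘ g₂`. By `tw_logUnits_comp` (all the values are
nonzero) `s * tw θ σ v * tw θ' σ' w = tw θ σ' v * tw θ' σ w` with
`s = θ'(g₁) θ(g₁)⁻¹ θ(g₂) θ'(g₂)⁻¹`, which is `1` or `-1` by SGN. If `σ' c = σ t` on `K`, then
`σ₂ (g₂ c) = σ₁ (g₁ t)` on `K`; the automorphism `g₂|K` commutes with `c` (for all `φ : K → ℂ`,
`φ ∘ g₂ ∘ c = conj (φ ∘ g₂) = conj φ ∘ g₂ = φ ∘ c ∘ g₂`), so `τ₂ ∘ c = τ₁ ∘ (g₁ t g₂⁻¹)` on `K`. If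
`g₁ t g₂⁻¹` were trivial on `K` then `φ₁ = φ₂ ∘ c = conj φ₂`, impossible for a CM type. So by SGN
`θ'(g₁ t g₂⁻¹) = -θ(g₁ t g₂⁻¹)`, i.e. `s θ'(t) = -θ(t)`. -/
def S_RL : Prop := ∀ (k₀ : Type u) [Field k₀] [NumberField k₀] (K : Type v) [Field K]
  [NumberField K] [IsCMField K] (H : Type w) [Field H] [NumberField H] (N : Type x)
  [Field N] [NumberField N] [Algebra k₀ K] [Algebra K H] [Algebra H N] [Algebra k₀ N] [Algebra K N]
  [IsScalarTower k₀ K N] [IsScalarTower K H N] [IsGalois k₀ N] [IsGalois K H]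
  [Fintype (N ≃ₐ[k₀] N)] (Ω : Type y) [Field Ω] [CharZero Ω] [IsAlgClosed Ω]
  [Algebra.IsAlgebraic ℚ Ω] (p : ℕ) [Fact p.Prime] (k : Type z) [NormedField k]
  [NormedAlgebra ℚ_[p] k] [IsUltrametricDist k] [CompleteSpace k] [IsAlgClosed k]
  (ιinf : Ω →+* ℂ) (ιp : Ω →+* k) (S : Set (K →+* ℂ)) (χ : (H ≃ₐ[K] H) →* kˣ)
  (Λ : IwasawaLog p k) (θ θ' : (N ≃ₐ[k₀] N) →* kˣ) (c : K →+* K),
  (∀ φ : K →+* ℂ, φ.comp c = ComplexEmbedding.conjugate φ) → finrank ℚ k₀ = 2 →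
  finrank k₀ K = 2 → IsCMType S → χ ≠ 1 → Compat χ θ → Compat χ θ' → θ ≠ θ' →
  (IsTotallyComplex k₀ → θ ≠ 1 ∧ θ' ≠ 1) →
  ¬ InjectiveOn (finrank K H) χ unitsHom (logSigma ιinf ιp S Λ) → REL k₀ K N c Λ θ θ'

/-- **AC** (the archimedean input of the core), from NV. Complex case: let `t` with
`conj ρ' = ρ ∘ t` (GA7 for `N/k₀` and `ℂ`: the two embeddings of the imaginary quadratic field `k₀`
are conjugate), so `tw θ_j (archLog ρ') v = θ_j(t) tw θ_j (archLog ρ) v` (`archLog_conj`,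
`tw_archLog_comp`), and the determinant is `(s θ₁(t) - θ₀(t)) L(θ₀, v₀) L(θ₁, v₁) = -2 θ₀(t) L L`,
with `L(θ_j, v_j) = tw θ_j (archLog ρ) v_j ≠ 0` by NV (no `c ∈ Gal(N/k₀)` satisfies
`conj ρ = ρ ∘ c`, restrict to `k₀`). Real case: if `conj ρ = ρ ∘ c` and `θ(c) = -1` then
`tw θ (archLog ρ) v = θ(c) tw θ (archLog ρ) v` is `0`; if `θ(c) = 1` and `θ ≠ 1`, NV applies (the
element `c` is unique, `ρ` is injective). So `L(θ₀, v₀)(ρ) ≠ 0`, `L(θ₁, v₁)(ρ') ≠ 0`,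
`L(θ₀, v₀)(ρ') = 0`, `L(θ₂, v₂)(ρ') ≠ 0`; `θ₀ ≠ 1` since `θ₀(c') = -1`, `θ_j ≠ 1` since
`θ_j(c) = -1`. -/
def S_AC : Prop := ∀ (k₀ : Type u) [Field k₀] [NumberField k₀] (N : Type v) [Field N]
  [NumberField N] [Algebra k₀ N] [IsGalois k₀ N] [Fintype (N ≃ₐ[k₀] N)]
  (θ : Fin 3 → (N ≃ₐ[k₀] N) →* ℂˣ) (ρ ρ' : N →+* ℂ) (s : ℂ), finrank ℚ k₀ = 2 → s ≠ 0 →
  ((IsTotallyComplex k₀ ∧ ρ.comp (algebraMap k₀ N) ≠ ρ'.comp (algebraMap k₀ N) ∧
    (∀ j, θ j ≠ 1) ∧ ∀ t : N ≃ₐ[k₀] N, ComplexEmbedding.conjugate ρ' = ρ.comp (t : N →+* N) →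
      s * ((θ 1 t : ℂˣ) : ℂ) = -((θ 0 t : ℂˣ) : ℂ)) ∨
   (∃ c c' : N ≃ₐ[k₀] N, ComplexEmbedding.conjugate ρ = ρ.comp (c : N →+* N) ∧
    ComplexEmbedding.conjugate ρ' = ρ'.comp (c' : N →+* N) ∧ θ 0 c = 1 ∧ θ 0 c' = -1 ∧
    θ 1 c = -1 ∧ θ 1 c' = 1 ∧ θ 2 c = -1 ∧ θ 2 c' = 1)) →
  ∃ v : Fin 3 → Additive (𝓞 N)ˣ,
    s * tw (θ 0) (archLog ρ) (v 0) * tw (θ 1) (archLog ρ') (v 1) -
      tw (θ 0) (archLog ρ') (v 0) * tw (θ 1) (archLog ρ) (v 1) ≠ 0 ∧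
    (tw (θ 2) (archLog ρ) (v 2) ≠ 0 ∨ tw (θ 2) (archLog ρ') (v 2) ≠ 0)

/-- **LEO** (the case `χ = 1`, `H = K`): `K` is a quartic CM field, so its units have rank `1`
(`IsTotallyComplex`: two complex places); let `η` be a fundamental unit (`fundSystem`,
`exist_unique_eq_mul_prod`). Every `x ∈ k ⊗ U` is `c ⊗ η` (roots of unity are killed in `k ⊗ U`
since `k` has characteristic zero), `Gal(K/K)` is trivial and `eChi` is the identity. A CM type is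
not empty; take `σ : K → Ω` with `ιinf σ ∈ S` (`exists_lift_embedding`): `c * Λ(ιp σ η) = 0`, and
`Λ(ιp σ η) ≠ 0` since `η` is not a root of unity (`torsion_of_log_eq_zero` in
`Pool/Agent/Helper51/SixExp/UnitsAlg.lean`, with `log_img`, `img_isUnitAlg`), so `c = 0`. Here `H/K`
has degree `1` (so `algebraMap K H` is bijective). -/
def S_LEO : Prop := ∀ (K : Type u) [Field K] [NumberField K] [IsTotallyComplex K] (H : Type v)
  [Field H] [NumberField H] [Algebra K H] (Ω : Type w) [Field Ω] [CharZero Ω] [IsAlgClosed Ω]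
  (p : ℕ) [Fact p.Prime] (k : Type x) [NormedField k] [NormedAlgebra ℚ_[p] k]
  [IsUltrametricDist k] (ιinf : Ω →+* ℂ) (ιp : Ω →+* k) (S : Set (K →+* ℂ))
  (χ : (H ≃ₐ[K] H) →* kˣ) (Λ : IwasawaLog p k), finrank ℚ K = 4 → finrank K H = 1 →
  IsCMType S → InjectiveOn (finrank K H) χ unitsHom (logSigma ιinf ιp S Λ)

end Pool.Agent.Helper42.SLC
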